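import Mathlib

/-!
# Colouring tools for oriented graphs, and good arcs for double stars
-/

set_option autoImplicit false

namespace Pool.Helper56.Havet

open Finset
open scoped Classical

variable {V : Type*}

/-- The part `S` can be properly coloured with colours `< n`. -/
def Col (O : V → V → Prop) (S : Finset V) (n : ℕ) : Prop :=
  ∃ c : V → ℕ, (∀ x ∈ S, c x < n) ∧ ∀ x ∈ S, ∀ y ∈ S, O x y → c x ≠ c y

theorem Col.mono {O : V → V → Prop} {S T : Finset V} {n m : ℕ} (h : Col O T n) (hS : S ⊆ T)
    (hn : n ≤ m) : Col O S m := by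
  obtain ⟨c, h1, h2⟩ := h
  exact ⟨c, fun x hx => lt_of_lt_of_le (h1 x (hS hx)) hn,
    fun x hx y hy => h2 x (hS hx) y (hS hy)⟩

theorem Col.union {O : V → V → Prop} {S T : Finset V} {n m : ℕ} (h : Col O S n)
    (h' : Col O T m) : Col O (S ∪ T) (n + m) := by
  obtain ⟨c, h1, h2⟩ := h
  obtain ⟨c', h1', h2'⟩ := h'
  refine ⟨fun x => if x ∈ S then c x else n + c' x, ?_, ?_⟩
  · intro x hx
    by_cases hS : x ∈ S
    · simp only [hS, if_true]; have := h1 x hS; omega
    · have hT : x ∈ T := by
        rcases mem_union.1 hx with h | h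
        · exact absurd h hS
        · exact h
      simp only [hS, if_false]; have := h1' x hT; omega
  · intro x hx y hy hxy
    by_cases hSx : x ∈ S <;> by_cases hSy : y ∈ S
    · simp only [hSx, hSy, if_true]; exact h2 x hSx y hSy hxy
    · simp only [hSx, hSy, if_true, if_false]; have := h1 x hSx; omega
    · simp only [hSx, hSy, if_true, if_false]; have := h1 y hSy; omega
    · have hTx : x ∈ T := (mem_union.1 hx).resolve_left hSx
      have hTy : y ∈ T := (mem_union.1 hy).resolve_left hSy
      simp only [hSx, hSy, if_false]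
      have := h2' x hTx y hTy hxy
      omega

theorem Col.flip {O : V → V → Prop} {S : Finset V} {n : ℕ} (h : Col O S n) :
    Col (fun x y => O y x) S n := by
  obtain ⟨c, h1, h2⟩ := h
  exact ⟨c, h1, fun x hx y hy hxy => (h2 y hy x hx hxy).symm⟩

theorem Col.insert {O : V → V → Prop} (hO : ∀ x y, O x y → ¬ O y x) {S : Finset V} {n : ℕ} {v : V}
    (hv : v ∉ S) (h : Col O S n) (hd : (S.filter (fun y => O v y ∨ O y v)).card < n) :
    Col O (insert v S) n := by
  obtain ⟨c, h1, h2⟩ := h
  have : ∃ k ∈ range n, k ∉ (S.filter (fun y => O v y ∨ O y v)).image c := by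
    by_contra hcon
    push Not at hcon
    have h3 : range n ⊆ (S.filter (fun y => O v y ∨ O y v)).image c := fun k hk => hcon k hk
    have h4 := card_le_card h3
    rw [card_range] at h4
    have := card_image_le (s := S.filter (fun y => O v y ∨ O y v)) (f := c)
    omega
  obtain ⟨k, hk, hk'⟩ := this
  rw [mem_range] at hk
  have hne : ∀ y ∈ S, (O v y ∨ O y v) → c y ≠ k := by
    intro y hy hvy he
    apply hk'
    rw [mem_image]
    exact ⟨y, mem_filter.2 ⟨hy, hvy⟩, he⟩
  refine ⟨fun x => if x = v then k else c x, ?_, ?_⟩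
  · intro x hx
    by_cases hxv : x = v
    · simp only [hxv, if_true]; exact hk
    · simp only [hxv, if_false]; exact h1 x ((mem_insert.1 hx).resolve_left hxv)
  · intro x hx y hy hxy
    by_cases hxv : x = v <;> by_cases hyv : y = v
    · subst hxv; subst hyv; exact absurd hxy (hO _ _ hxy)
    · subst hxv
      simp only [hyv, if_true, if_false]
      exact (hne y ((mem_insert.1 hy).resolve_left hyv) (Or.inl hxy)).symm
    · subst hyv
      simp only [hxv, if_true, if_false]
      exact hne x ((mem_insert.1 hx).resolve_left hxv) (Or.inr hxy)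
    · simp only [hxv, hyv, if_false]
      exact h2 x ((mem_insert.1 hx).resolve_left hxv) y ((mem_insert.1 hy).resolve_left hyv) hxy

/-- handshake -/
theorem sum_out_eq_sum_in (O : V → V → Prop) (S T : Finset V) :
    ∑ x ∈ S, (T.filter (fun y => O x y)).card = ∑ y ∈ T, (S.filter (fun x => O x y)).card :=
  sum_card_bipartiteAbove_eq_sum_card_bipartiteBelow O

theorem deg_eq {O : V → V → Prop} (hO : ∀ x y, O x y → ¬ O y x) (S : Finset V) (v : V) :
    (S.filter (fun y => O v y ∨ O y v)).card =
      (S.filter (fun y => O v y)).card + (S.filter (fun y => O y v)).card := by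
  rw [filter_or, card_union_of_disjoint]
  rw [disjoint_filter]
  intro x _ h h'
  exact hO _ _ h h'

theorem sum_deg {O : V → V → Prop} (hO : ∀ x y, O x y → ¬ O y x) (S : Finset V) :
    ∑ v ∈ S, (S.filter (fun y => O v y ∨ O y v)).card =
      2 * ∑ v ∈ S, (S.filter (fun y => O v y)).card := by
  simp_rw [deg_eq hO]
  rw [sum_add_distrib, ← sum_out_eq_sum_in O S S]
  ring

theorem col_of_out {O : V → V → Prop} (hO : ∀ x y, O x y → ¬ O y x) (a : ℕ) :
    ∀ S : Finset V, (∀ x ∈ S, (S.filter (fun y => O x y)).card ≤ a) → Col O S (2 * a + 1) := by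
  intro S
  induction S using Finset.strongInduction with
  | H S ih =>
    intro hS
    rcases S.eq_empty_or_nonempty with rfl | hne
    · exact ⟨fun _ => 0, by simp, by simp⟩
    · obtain ⟨v, hv, hdv⟩ : ∃ v ∈ S, (S.filter (fun y => O v y ∨ O y v)).card ≤ 2 * a := by
        by_contra hcon
        push Not at hcon
        have h1 : ∑ v ∈ S, (2 * a + 1) ≤ ∑ v ∈ S, (S.filter (fun y => O v y ∨ O y v)).card :=
          sum_le_sum fun v hv => hcon v hv
        rw [sum_deg hO] at h1
        have h2 : ∑ v ∈ S, (S.filter (fun y => O v y)).card ≤ ∑ v ∈ S, a :=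
          sum_le_sum hS
        simp only [sum_const, smul_eq_mul] at h1 h2
        have := hne.card_pos
        nlinarith
      have h3 : Col O (S.erase v) (2 * a + 1) := by
        apply ih _ (erase_ssubset hv)
        intro x hx
        refine le_trans (card_le_card ?_) (hS x (mem_of_mem_erase hx))
        exact filter_subset_filter _ (erase_subset _ _)
      have h4 := h3.insert hO (notMem_erase v S) (by
        refine lt_of_le_of_lt (card_le_card (filter_subset_filter _ (erase_subset v S))) ?_
        omega)
      rwa [insert_erase hv] at h4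

theorem col_of_in {O : V → V → Prop} (hO : ∀ x y, O x y → ¬ O y x) (a : ℕ)
    (S : Finset V) (h : ∀ x ∈ S, (S.filter (fun y => O y x)).card ≤ a) : Col O S (2 * a + 1) :=
  (col_of_out (O := fun x y => O y x) (fun x y h h' => hO _ _ h' h) a S h).flip

/-- If all out-degrees in `S` are at most `a`, there is an independent set of vertices of
out-degree exactly `a` whose removal leaves a `2a`-colourable part. -/
theorem exists_indep {O : V → V → Prop} (hO : ∀ x y, O x y → ¬ O y x) (a : ℕ) :
    ∀ S : Finset V, (∀ x ∈ S, (S.filter (fun y => O x y)).card ≤ a) →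
      ∃ I ⊆ S, (∀ x ∈ I, (S.filter (fun y => O x y)).card = a) ∧
        (∀ x ∈ I, ∀ y ∈ I, ¬ O x y) ∧ Col O (S \ I) (2 * a) := by
  intro S
  induction S using Finset.strongInduction with
  | H S ih =>
    intro hS
    rcases S.eq_empty_or_nonempty with rfl | hne
    · exact ⟨∅, by simp, by simp, by simp, ⟨fun _ => 0, by simp, by simp⟩⟩
    -- removing a vertex
    have key : ∀ v ∈ S, ∃ I ⊆ S.erase v,
        (∀ x ∈ I, ((S.erase v).filter (fun y => O x y)).card = a) ∧
        (∀ x ∈ I, ∀ y ∈ I, ¬ O x y) ∧ Col O ((S.erase v) \ I) (2 * a) := by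
      intro v hv
      apply ih _ (erase_ssubset hv)
      intro x hx
      refine le_trans (card_le_card ?_) (hS x (mem_of_mem_erase hx))
      exact filter_subset_filter _ (erase_subset _ _)
    have hfull : ∀ v ∈ S, ∀ x ∈ S.erase v, ((S.erase v).filter (fun y => O x y)).card = a →
        (S.filter (fun y => O x y)).card = a ∧ ¬ O x v := by
      intro v hv x hx he
      have h1 := hS x (mem_of_mem_erase hx)
      have h2 : (S.erase v).filter (fun y => O x y) ⊆ S.filter (fun y => O x y) :=
        filter_subset_filter _ (erase_subset _ _)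
      have h3 := card_le_card h2
      refine ⟨by omega, fun hxv => ?_⟩
      have h4 := eq_of_subset_of_card_le h2 (by omega)
      have h5 : v ∈ S.filter (fun y => O x y) := mem_filter.2 ⟨hv, hxv⟩
      rw [← h4] at h5
      simp at h5
    by_cases hlow : ∃ v ∈ S, (S.filter (fun y => O v y ∨ O y v)).card < 2 * a
    · obtain ⟨v, hv, hdv⟩ := hlow
      obtain ⟨I, hI, hI1, hI2, hI3⟩ := key v hv
      have hvI : v ∉ I := fun h => by have := hI h; simp at this
      refine ⟨I, hI.trans (erase_subset _ _), fun x hx => (hfull v hv x (hI hx) (hI1 x hx)).1,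
        hI2, ?_⟩
      have h4 := hI3.insert (v := v) hO (by simp) (by
        refine lt_of_le_of_lt (card_le_card (filter_subset_filter _ ?_)) hdv
        exact sdiff_subset.trans (erase_subset _ _))
      refine h4.mono ?_ le_rfl
      intro x hx
      rw [mem_sdiff] at hx
      rw [mem_insert, mem_sdiff, mem_erase]
      by_cases hxv : x = v
      · exact Or.inl hxv
      · exact Or.inr ⟨⟨hxv, hx.1⟩, hx.2⟩
    · push Not at hlow
      -- all out-degrees are exactly `a`, all degrees exactly `2a`
      have hsum : ∑ v ∈ S, 2 * a ≤ ∑ v ∈ S, (S.filter (fun y => O v y ∨ O y v)).card :=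
        sum_le_sum fun v hv => hlow v hv
      have hsd := sum_deg hO S
      have hso : ∑ v ∈ S, (S.filter (fun y => O v y)).card ≤ ∑ v ∈ S, a := sum_le_sum hS
      have hc1 : ∑ v ∈ S, 2 * a = 2 * ∑ v ∈ S, a := by rw [mul_sum]
      have hout : ∀ v ∈ S, (S.filter (fun y => O v y)).card = a :=
        (sum_eq_sum_iff_of_le hS).1 (by omega)
      have hdeg : ∀ v ∈ S, (2 * a) = (S.filter (fun y => O v y ∨ O y v)).card :=
        (sum_eq_sum_iff_of_le fun v hv => hlow v hv).1 (by omega)
      obtain ⟨v, hv⟩ := hne
      obtain ⟨I, hI, hI1, hI2, hI3⟩ := key v hv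
      have hvI : v ∉ I := fun h => by have := hI h; simp at this
      by_cases hex : ∃ x ∈ I, O v x
      · obtain ⟨x, hx, hvx⟩ := hex
        refine ⟨I, hI.trans (erase_subset _ _), fun x hx => (hfull v hv x (hI hx) (hI1 x hx)).1,
          hI2, ?_⟩
        have h4 := hI3.insert (v := v) hO (by simp) (by
          rw [hdeg v hv]
          apply card_lt_card
          rw [ssubset_iff_of_subset]
          · refine ⟨x, mem_filter.2 ⟨(hI.trans (erase_subset _ _)) hx, Or.inl hvx⟩, ?_⟩
            intro h
            have := (mem_sdiff.1 (mem_filter.1 h).1).2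
            exact this hx
          · exact filter_subset_filter _ (sdiff_subset.trans (erase_subset _ _)))
        refine h4.mono ?_ le_rfl
        intro x hx
        rw [mem_sdiff] at hx
        rw [mem_insert, mem_sdiff, mem_erase]
        by_cases hxv : x = v
        · exact Or.inl hxv
        · exact Or.inr ⟨⟨hxv, hx.1⟩, hx.2⟩
      · push Not at hex
        refine ⟨insert v I, insert_subset hv (hI.trans (erase_subset _ _)), ?_, ?_, ?_⟩
        · intro x hx
          rcases mem_insert.1 hx with rfl | hx
          · exact hout _ hv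
          · exact (hfull v hv x (hI hx) (hI1 x hx)).1
        · intro x hx y hy hxy
          rcases mem_insert.1 hx with rfl | hx' <;> rcases mem_insert.1 hy with rfl | hy'
          · exact hO _ _ hxy hxy
          · exact hex y hy' hxy
          · exact (hfull _ hv x (hI hx') (hI1 x hx')).2 hxy
          · exact hI2 x hx' y hy' hxy
        · refine hI3.mono ?_ le_rfl
          intro x hx
          rw [mem_sdiff, mem_insert, not_or] at hx
          rw [mem_sdiff, mem_erase]
          exact ⟨⟨hx.2.1, hx.1⟩, hx.2.2⟩

end Pool.Helper56.Havet
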