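import Pool.Agent.Helper56.Havet.Good

/-!
# Placing the leaves, and the structure of trees with at most two inner vertices
-/

set_option autoImplicit false

namespace Pool.Helper56.Havet

open Finset
open scoped Classical

/-- Hall type lemma for four kinds of leaves. -/
theorem hall4 {ι V : Type*} [Fintype ι] (τ : ι → Fin 4) (F : Fin 4 → Finset V)
    (h0 : (univ.filter (fun i => τ i = 0)).card ≤ (F 0).card)
    (h1 : (univ.filter (fun i => τ i = 1)).card ≤ (F 1).card)
    (h2 : (univ.filter (fun i => τ i = 2)).card ≤ (F 2).card)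
    (h3 : (univ.filter (fun i => τ i = 3)).card ≤ (F 3).card)
    (h02 : (univ.filter (fun i => τ i = 0)).card + (univ.filter (fun i => τ i = 2)).card
      ≤ (F 0 ∪ F 2).card)
    (h03 : (univ.filter (fun i => τ i = 0)).card + (univ.filter (fun i => τ i = 3)).card
      ≤ (F 0 ∪ F 3).card)
    (h12 : (univ.filter (fun i => τ i = 1)).card + (univ.filter (fun i => τ i = 2)).card
      ≤ (F 1 ∪ F 2).card)
    (h13 : (univ.filter (fun i => τ i = 1)).card + (univ.filter (fun i => τ i = 3)).card
      ≤ (F 1 ∪ F 3).card)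
    (h01 : Fintype.card ι ≤ (F 0 ∪ F 1).card)
    (h23 : Fintype.card ι ≤ (F 2 ∪ F 3).card ∨ ∀ i, τ i ≠ 2 ∧ τ i ≠ 3) :
    ∃ f : ι → V, Function.Injective f ∧ ∀ i, f i ∈ F (τ i) := by
  rw [← all_card_le_biUnion_card_iff_exists_injective (fun i => F (τ i))]
  intro s
  have hs : s.card = (s.filter (fun i => τ i = 0)).card + (s.filter (fun i => τ i = 1)).card +
      (s.filter (fun i => τ i = 2)).card + (s.filter (fun i => τ i = 3)).card := by
    rw [card_eq_sum_card_fiberwise (f := τ) (t := univ) (fun _ _ => by simp)]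
    rw [Fin.sum_univ_four]
  have hle : ∀ j, (s.filter (fun i => τ i = j)).card ≤ (univ.filter (fun i => τ i = j)).card :=
    fun j => card_le_card (filter_subset_filter _ (subset_univ _))
  have hcard : s.card ≤ Fintype.card ι := card_le_univ s
  have hzero : ∀ j, ¬ (∃ i ∈ s, τ i = j) → (s.filter (fun i => τ i = j)).card = 0 := by
    intro j hj
    rw [card_eq_zero, filter_eq_empty_iff]
    intro i hi he
    exact hj ⟨i, hi, he⟩
  have hsub : ∀ j, (∃ i ∈ s, τ i = j) → F j ⊆ s.biUnion (fun i => F (τ i)) := by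
    rintro j ⟨i, hi, rfl⟩
    exact subset_biUnion_of_mem (fun i => F (τ i)) hi
  have hle0 := hle 0
  have hle1 := hle 1
  have hle2 := hle 2
  have hle3 := hle 3
  by_cases j0 : ∃ i ∈ s, τ i = 0 <;> by_cases j1 : ∃ i ∈ s, τ i = 1
  · have := card_le_card (union_subset (hsub 0 j0) (hsub 1 j1))
    omega
  · have z1 := hzero 1 j1
    by_cases j2 : ∃ i ∈ s, τ i = 2 <;> by_cases j3 : ∃ i ∈ s, τ i = 3
    · have := card_le_card (union_subset (hsub 2 j2) (hsub 3 j3))
      rcases h23 with h23 | h23
      · omega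
      · obtain ⟨i, _, hi⟩ := j2
        exact absurd hi (h23 i).1
    · have z3 := hzero 3 j3
      have := card_le_card (union_subset (hsub 0 j0) (hsub 2 j2))
      omega
    · have z2 := hzero 2 j2
      have := card_le_card (union_subset (hsub 0 j0) (hsub 3 j3))
      omega
    · have z2 := hzero 2 j2
      have z3 := hzero 3 j3
      have := card_le_card (hsub 0 j0)
      omega
  · have z0 := hzero 0 j0
    by_cases j2 : ∃ i ∈ s, τ i = 2 <;> by_cases j3 : ∃ i ∈ s, τ i = 3
    · have := card_le_card (union_subset (hsub 2 j2) (hsub 3 j3))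
      rcases h23 with h23 | h23
      · omega
      · obtain ⟨i, _, hi⟩ := j2
        exact absurd hi (h23 i).1
    · have z3 := hzero 3 j3
      have := card_le_card (union_subset (hsub 1 j1) (hsub 2 j2))
      omega
    · have z2 := hzero 2 j2
      have := card_le_card (union_subset (hsub 1 j1) (hsub 3 j3))
      omega
    · have z2 := hzero 2 j2
      have z3 := hzero 3 j3
      have := card_le_card (hsub 1 j1)
      omega
  · have z0 := hzero 0 j0
    have z1 := hzero 1 j1
    by_cases j2 : ∃ i ∈ s, τ i = 2 <;> by_cases j3 : ∃ i ∈ s, τ i = 3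
    · have := card_le_card (union_subset (hsub 2 j2) (hsub 3 j3))
      rcases h23 with h23 | h23
      · omega
      · obtain ⟨i, _, hi⟩ := j2
        exact absurd hi (h23 i).1
    · have z3 := hzero 3 j3
      have := card_le_card (hsub 2 j2)
      omega
    · have z2 := hzero 2 j2
      have := card_le_card (hsub 3 j3)
      omega
    · have z2 := hzero 2 j2
      have z3 := hzero 3 j3
      omega

/-- A set of vertices closed under adjacency in a connected graph is everything. -/
theorem closed_univ {W : Type*} {H : SimpleGraph W} (hc : H.Preconnected) {C : Set W} {p : W}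
    (hp : p ∈ C) (hC : ∀ x ∈ C, ∀ y, H.Adj x y → y ∈ C) (q : W) : q ∈ C := by
  obtain ⟨w⟩ := hc p q
  induction w with
  | nil => exact hp
  | cons h _ ih => exact ih (hC _ hp _ h)

variable {V : Type*} [Fintype V]

/-- Embedding a double star at a good arc. -/
theorem embed_double {W : Type*} [Fintype W] {R : W → W → Prop} (hR : ∀ x y, R x y → ¬ R y x)
    {O : V → V → Prop} (hO : ∀ x y, O x y → ¬ O y x) {p q : W} (hpq : R p q)
    (hcov : ∀ w, w ≠ p → w ≠ q → (R p w ∨ R w p) ∨ (R q w ∨ R w q))
    (hexc : ∀ w, (R p w ∨ R w p) → ¬ (R q w ∨ R w q))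
    (honly : ∀ v w, R v w → (v = p ∨ v = q) ∨ (w = p ∨ w = q)) :
    ∃ a b c d : ℕ, a + b + c + d + 2 = Fintype.card W ∧
      (∀ w, w ≠ q → (R p w ∨ R w p) → 1 ≤ a + b) ∧
      (∀ w, w ≠ p → (R q w ∨ R w q) → 1 ≤ c + d) ∧
      ∀ x y, Good O a b c d x y →
        ∃ f : W → V, Function.Injective f ∧ ∀ v w, R v w → O (f v) (f w) := by
  have hne : p ≠ q := by rintro rfl; exact hR _ _ hpq hpq
  have hirr : ∀ x, ¬ R x x := fun x h => hR _ _ h h
  have hirrO : ∀ x, ¬ O x x := fun x h => hO _ _ h h
  let ι := {w : W // w ≠ p ∧ w ≠ q}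
  let τ : ι → Fin 4 := fun w =>
    if R p w.1 then 0 else if R w.1 p then 1 else if R q w.1 then 2 else 3
  have t0 : ∀ w : ι, τ w = 0 ↔ R p w.1 := by
    intro w; simp only [τ]; split_ifs with h1 h2 h3 <;> simp_all
  have t1 : ∀ w : ι, τ w = 1 ↔ R w.1 p := by
    intro w; simp only [τ]
    by_cases h1 : R p w.1
    · simp [h1, hR _ _ h1]
    · by_cases h2 : R w.1 p
      · simp [h1, h2]
      · by_cases h3 : R q w.1 <;> simp [h1, h2, h3]
  have t2 : ∀ w : ι, τ w = 2 ↔ R q w.1 := by
    intro w; simp only [τ]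
    by_cases h1 : R p w.1
    · have := hexc w.1 (Or.inl h1)
      simp only [not_or] at this
      simp [h1, this.1]
    · by_cases h2 : R w.1 p
      · have := hexc w.1 (Or.inr h2)
        simp only [not_or] at this
        simp [h1, h2, this.1]
      · by_cases h3 : R q w.1 <;> simp [h1, h2, h3]
  have t3 : ∀ w : ι, τ w = 3 ↔ R w.1 q := by
    intro w; simp only [τ]
    by_cases h1 : R p w.1
    · have := hexc w.1 (Or.inl h1)
      simp only [not_or] at this
      simp [h1, this.2]
    · by_cases h2 : R w.1 p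
      · have := hexc w.1 (Or.inr h2)
        simp only [not_or] at this
        simp [h1, h2, this.2]
      · by_cases h3 : R q w.1
        · simp [h1, h2, h3, hR _ _ h3]
        · have := hcov w.1 w.2.1 w.2.2
          simp only [h1, h2, h3, false_or] at this
          simp [h1, h2, h3, this]
  have hcardι : Fintype.card ι + 2 = Fintype.card W := by
    have h1 : Fintype.card ι = (univ.filter (fun w : W => w ≠ p ∧ w ≠ q)).card :=
      Fintype.card_subtype _
    have h2 : (univ.filter (fun w : W => w ≠ p ∧ w ≠ q)) = univ \ {p, q} := by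
      ext w; simp [not_or]
    rw [h1, h2, card_sdiff_of_subset (subset_univ _), card_pair hne, card_univ]
    have : 2 ≤ Fintype.card W := by
      rw [← card_pair hne, ← card_univ]
      exact card_le_card (subset_univ _)
    omega
  have hsum : (univ.filter (fun i => τ i = 0)).card + (univ.filter (fun i => τ i = 1)).card +
      (univ.filter (fun i => τ i = 2)).card + (univ.filter (fun i => τ i = 3)).card =
      Fintype.card ι := by
    have h := card_eq_sum_card_fiberwise (s := (univ : Finset ι)) (f := τ) (t := univ)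
      (fun _ _ => by simp)
    rw [Fin.sum_univ_four, card_univ] at h
    omega
  have hsum1 : (univ.filter (fun i => τ i = 0)).card + (univ.filter (fun i => τ i = 1)).card =
      (univ.filter (fun w => w ≠ q ∧ (R p w ∨ R w p))).card := by
    rw [← card_union_of_disjoint (by
      rw [disjoint_filter]; intro i _ h h'; rw [h] at h'; exact absurd h' (by decide))]
    rw [← card_map ⟨Subtype.val, Subtype.val_injective⟩]
    congr 1
    ext w
    simp only [mem_map, mem_union, mem_filter, mem_univ, true_and, Function.Embedding.coeFn_mk]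
    constructor
    · rintro ⟨i, hi, rfl⟩
      rw [t0, t1] at hi
      exact ⟨i.2.2, hi⟩
    · rintro ⟨h1, h2⟩
      have h3 : w ≠ p := by
        rintro rfl
        rcases h2 with h | h <;> exact hirr _ h
      refine ⟨⟨w, h3, h1⟩, ?_, rfl⟩
      rw [t0, t1]
      exact h2
  have hsum2 : (univ.filter (fun i => τ i = 2)).card + (univ.filter (fun i => τ i = 3)).card =
      (univ.filter (fun w => w ≠ p ∧ (R q w ∨ R w q))).card := by
    rw [← card_union_of_disjoint (by
      rw [disjoint_filter]; intro i _ h h'; rw [h] at h'; exact absurd h' (by decide))]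
    rw [← card_map ⟨Subtype.val, Subtype.val_injective⟩]
    congr 1
    ext w
    simp only [mem_map, mem_union, mem_filter, mem_univ, true_and, Function.Embedding.coeFn_mk]
    constructor
    · rintro ⟨i, hi, rfl⟩
      rw [t2, t3] at hi
      exact ⟨i.2.1, hi⟩
    · rintro ⟨h1, h2⟩
      have h3 : w ≠ q := by
        rintro rfl
        rcases h2 with h | h <;> exact hirr _ h
      refine ⟨⟨w, h1, h3⟩, ?_, rfl⟩
      rw [t2, t3]
      exact h2
  refine ⟨(univ.filter (fun i => τ i = 0)).card, (univ.filter (fun i => τ i = 1)).card,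
    (univ.filter (fun i => τ i = 2)).card, (univ.filter (fun i => τ i = 3)).card, by omega,
    ?_, ?_, ?_⟩
  · intro w h1 h2
    rw [hsum1]
    exact card_pos.2 ⟨w, mem_filter.2 ⟨mem_univ _, h1, h2⟩⟩
  · intro w h1 h2
    rw [hsum2]
    exact card_pos.2 ⟨w, mem_filter.2 ⟨mem_univ _, h1, h2⟩⟩
  intro x y hgood
  obtain ⟨hxy, g1, g2, g3, g4, g5, g6, g7, g8, g9, g10⟩ := hgood
  have hxyne : x ≠ y := by rintro rfl; exact hO _ _ hxy hxy
  let F : Fin 4 → Finset V := ![No O x \ {y}, Ni O x, No O y, Ni O y \ {x}]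
  have e0 : F 0 = No O x \ {y} := rfl
  have e1 : F 1 = Ni O x := rfl
  have e2 : F 2 = No O y := rfl
  have e3 : F 3 = Ni O y \ {x} := rfl
  obtain ⟨f, hf, hfF⟩ := hall4 τ F (by rw [e0]; exact g1) (by rw [e1]; exact g2)
    (by rw [e2]; exact g3) (by rw [e3]; exact g4) (by rw [e0, e2]; exact g5)
    (by rw [e0, e3]; exact g6) (by rw [e1, e2]; exact g7) (by rw [e1, e3]; exact g8)
    (by rw [e0, e1]; omega) (Or.inl (by rw [e2, e3]; omega))
  have fx : ∀ i, f i ≠ x := by
    intro i he
    have h := hfF i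
    rw [he] at h
    have hi : τ i = 0 ∨ τ i = 1 ∨ τ i = 2 ∨ τ i = 3 := by
      have : ∀ t : Fin 4, t = 0 ∨ t = 1 ∨ t = 2 ∨ t = 3 := by decide
      exact this _
    rcases hi with hi | hi | hi | hi
    · rw [hi, e0, mem_sdiff, mem_No] at h; exact hirrO _ h.1
    · rw [hi, e1, mem_Ni] at h; exact hirrO _ h
    · rw [hi, e2, mem_No] at h; exact hO _ _ hxy h
    · rw [hi, e3, mem_sdiff] at h; exact h.2 (mem_singleton_self _)
  have fy : ∀ i, f i ≠ y := by
    intro i he
    have h := hfF i
    rw [he] at h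
    have hi : τ i = 0 ∨ τ i = 1 ∨ τ i = 2 ∨ τ i = 3 := by
      have : ∀ t : Fin 4, t = 0 ∨ t = 1 ∨ t = 2 ∨ t = 3 := by decide
      exact this _
    rcases hi with hi | hi | hi | hi
    · rw [hi, e0, mem_sdiff] at h; exact h.2 (mem_singleton_self _)
    · rw [hi, e1, mem_Ni] at h; exact hO _ _ hxy h
    · rw [hi, e2, mem_No] at h; exact hirrO _ h
    · rw [hi, e3, mem_sdiff, mem_Ni] at h; exact hirrO _ h.1
  let φ : W → V := fun w => if h : w ≠ p ∧ w ≠ q then f ⟨w, h⟩ else if w = p then x else y
  have φp : φ p = x := by simp [φ]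
  have φq : φ q = y := by simp [φ, hne.symm]
  have φw : ∀ w (h : w ≠ p ∧ w ≠ q), φ w = f ⟨w, h⟩ := by
    intro w h; simp only [φ]; rw [dif_pos h]
  have cases3 : ∀ w : W, w = p ∨ w = q ∨ (w ≠ p ∧ w ≠ q) := by
    intro w; by_cases h : w = p
    · exact Or.inl h
    · by_cases h' : w = q
      · exact Or.inr (Or.inl h')
      · exact Or.inr (Or.inr ⟨h, h'⟩)
  refine ⟨φ, ?_, ?_⟩
  · intro v w hvw
    rcases cases3 v with rfl | rfl | hv <;> rcases cases3 w with rfl | rfl | hw
    · rfl
    · rw [φp, φq] at hvw; exact absurd hvw hxyne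
    · rw [φp, φw w hw] at hvw; exact absurd hvw.symm (fx _)
    · rw [φp, φq] at hvw; exact absurd hvw.symm hxyne
    · rfl
    · rw [φq, φw w hw] at hvw; exact absurd hvw.symm (fy _)
    · rw [φp, φw v hv] at hvw; exact absurd hvw (fx _)
    · rw [φq, φw v hv] at hvw; exact absurd hvw (fy _)
    · rw [φw v hv, φw w hw] at hvw
      have := hf hvw
      exact congrArg Subtype.val this
  · intro v w hvw
    rcases cases3 v with rfl | rfl | hv <;> rcases cases3 w with rfl | rfl | hw
    · exact absurd hvw (hirr _)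
    · rw [φp, φq]; exact hxy
    · rw [φp, φw w hw]
      have h := hfF ⟨w, hw⟩
      rw [(t0 ⟨w, hw⟩).2 hvw, e0, mem_sdiff, mem_No] at h
      exact h.1
    · exact absurd hvw (hR _ _ hpq)
    · exact absurd hvw (hirr _)
    · rw [φq, φw w hw]
      have h := hfF ⟨w, hw⟩
      rw [(t2 ⟨w, hw⟩).2 hvw, e2, mem_No] at h
      exact h
    · rw [φp, φw v hv]
      have h := hfF ⟨v, hv⟩
      rw [(t1 ⟨v, hv⟩).2 hvw, e1, mem_Ni] at h
      exact h
    · rw [φq, φw v hv]
      have h := hfF ⟨v, hv⟩
      rw [(t3 ⟨v, hv⟩).2 hvw, e3, mem_sdiff, mem_Ni] at h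
      exact h.1
    · rcases honly v w hvw with h | h
      · rcases h with h | h
        · exact absurd h hv.1
        · exact absurd h hv.2
      · rcases h with h | h
        · exact absurd h hw.1
        · exact absurd h hw.2

/-- Embedding a star. -/
theorem embed_star {W : Type*} [Fintype W] {R : W → W → Prop} (hR : ∀ x y, R x y → ¬ R y x)
    {O : V → V → Prop} (hO : ∀ x y, O x y → ¬ O y x) {p : W}
    (hcov : ∀ w, w ≠ p → (R p w ∨ R w p))
    (honly : ∀ v w, R v w → v = p ∨ w = p) :
    ∃ a b : ℕ, a + b + 1 = Fintype.card W ∧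
      ∀ x, a ≤ (No O x).card → b ≤ (Ni O x).card →
        ∃ f : W → V, Function.Injective f ∧ ∀ v w, R v w → O (f v) (f w) := by
  have hirr : ∀ x, ¬ R x x := fun x h => hR _ _ h h
  have hirrO : ∀ x, ¬ O x x := fun x h => hO _ _ h h
  let ι := {w : W // w ≠ p}
  have hcardι : Fintype.card ι + 1 = Fintype.card W := by
    have h1 : Fintype.card ι = (univ.filter (fun w : W => w ≠ p)).card :=
      Fintype.card_subtype _
    have h2 : (univ.filter (fun w : W => w ≠ p)) = univ.erase p := by
      ext w; simp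
    rw [h1, h2, card_erase_add_one (mem_univ p), card_univ]
  let τ : ι → Fin 4 := fun w => if R p w.1 then 0 else 1
  have t0 : ∀ w : ι, τ w = 0 ↔ R p w.1 := by
    intro w; simp only [τ]; split_ifs with h1 <;> simp_all
  have t1 : ∀ w : ι, τ w = 1 ↔ R w.1 p := by
    intro w; simp only [τ]
    by_cases h1 : R p w.1
    · simp [h1, hR _ _ h1]
    · have := hcov w.1 w.2
      simp only [h1, false_or] at this
      simp [h1, this]
  have t23 : ∀ i, τ i ≠ 2 ∧ τ i ≠ 3 := by
    intro i; simp only [τ]; split_ifs <;> simp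
  have z2 : (univ.filter (fun i => τ i = 2)).card = 0 := by
    rw [card_eq_zero, filter_eq_empty_iff]; exact fun i _ => (t23 i).1
  have z3 : (univ.filter (fun i => τ i = 3)).card = 0 := by
    rw [card_eq_zero, filter_eq_empty_iff]; exact fun i _ => (t23 i).2
  have hsum : (univ.filter (fun i => τ i = 0)).card + (univ.filter (fun i => τ i = 1)).card =
      Fintype.card ι := by
    have h := card_eq_sum_card_fiberwise (s := (univ : Finset ι)) (f := τ) (t := univ)
      (fun _ _ => by simp)
    rw [Fin.sum_univ_four, card_univ] at h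
    omega
  refine ⟨(univ.filter (fun i => τ i = 0)).card, (univ.filter (fun i => τ i = 1)).card,
    by omega, ?_⟩
  intro x ha hb
  let F : Fin 4 → Finset V := ![No O x, Ni O x, ∅, ∅]
  have e0 : F 0 = No O x := rfl
  have e1 : F 1 = Ni O x := rfl
  have e2 : F 2 = ∅ := rfl
  have e3 : F 3 = ∅ := rfl
  obtain ⟨f, hf, hfF⟩ := hall4 τ F (by rw [e0]; exact ha) (by rw [e1]; exact hb)
    (by rw [z2]; omega) (by rw [z3]; omega) (by rw [e0, e2, z2, union_empty]; exact ha)
    (by rw [e0, e3, z3, union_empty]; exact ha) (by rw [e1, e2, z2, union_empty]; exact hb)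
    (by rw [e1, e3, z3, union_empty]; exact hb)
    (by rw [e0, e1, card_union_of_disjoint (disj_out_in hO x)]; omega) (Or.inr t23)
  have cases2 : ∀ i, τ i = 0 ∨ τ i = 1 := by
    intro i; simp only [τ]; split_ifs <;> simp
  have fx : ∀ i, f i ≠ x := by
    intro i he
    have h := hfF i
    rw [he] at h
    rcases cases2 i with hi | hi
    · rw [hi, e0, mem_No] at h; exact hirrO _ h
    · rw [hi, e1, mem_Ni] at h; exact hirrO _ h
  let φ : W → V := fun w => if h : w ≠ p then f ⟨w, h⟩ else x
  have φp : φ p = x := by simp [φ]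
  have φw : ∀ w (h : w ≠ p), φ w = f ⟨w, h⟩ := by
    intro w h; simp only [φ]; rw [dif_pos h]
  refine ⟨φ, ?_, ?_⟩
  · intro v w hvw
    by_cases hv : v = p <;> by_cases hw : w = p
    · rw [hv, hw]
    · subst hv
      rw [φp, φw w hw] at hvw; exact absurd hvw.symm (fx _)
    · subst hw
      rw [φp, φw v hv] at hvw; exact absurd hvw (fx _)
    · rw [φw v hv, φw w hw] at hvw
      exact congrArg Subtype.val (hf hvw)
  · intro v w hvw
    by_cases hv : v = p <;> by_cases hw : w = p
    · subst hv; subst hw; exact absurd hvw (hirr _)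
    · subst hv
      rw [φp, φw w hw]
      have h := hfF ⟨w, hw⟩
      rw [(t0 ⟨w, hw⟩).2 hvw, e0, mem_No] at h
      exact h
    · subst hw
      rw [φp, φw v hv]
      have h := hfF ⟨v, hv⟩
      rw [(t1 ⟨v, hv⟩).2 hvw, e1, mem_Ni] at h
      exact h
    · rcases honly v w hvw with h | h
      · exact absurd h hv
      · exact absurd h hw

end Pool.Helper56.Havet
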