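import Pool.Agent.Helper56.Havet.Embed

/-!
# Trees with few inner vertices
-/

set_option autoImplicit false

namespace Pool.Helper56.Havet

open Finset
open scoped Classical

/-- In a tree, every nonempty finite set of vertices has a member with at most one neighbour
in the set. -/
theorem low_nbr {W : Type*} {H : SimpleGraph W} (hH : H.IsTree) (C : Finset W)
    (hC : C.Nonempty) : ∃ v ∈ C, ∀ y ∈ C, ∀ y' ∈ C, H.Adj v y → H.Adj v y' → y = y' := by
  obtain ⟨r⟩ := hH.connected.nonempty
  obtain ⟨v, hv, hmax⟩ := exists_max_image C (fun v => H.dist r v) hC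
  obtain ⟨p, hp, hp'⟩ := (hH.connected r v).exists_path_of_dist
  have key : ∀ y ∈ C, H.Adj v y → y = p.penultimate := by
    intro y hy hvy
    obtain ⟨q, hq, hq'⟩ := (hH.connected r y).exists_path_of_dist
    by_cases hyp : y ∈ p.support
    · exact hH.isAcyclic.eq_penultimate_of_adj_end hp hvy hyp
    · exfalso
      have hvq : v ∈ q.support :=
        hH.isAcyclic.mem_support_of_ne_mem_support_of_adj_of_isPath hq hp hvy.symm hyp
      have h1 := hH.isAcyclic.path_concat hp hq hvy hvq
      have h2 : q.length = p.length + 1 := by rw [h1, SimpleGraph.Walk.length_concat]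
      have h3 := hmax y hy
      omega
  exact ⟨v, hv, fun y hy y' hy' h h' => (key y hy h).trans (key y' hy' h').symm⟩

/-- A part that is not colourable with `n` colours has more than `n` vertices. -/
theorem card_of_not_col {V : Type*} {O : V → V → Prop} (hO : ∀ x y, O x y → ¬ O y x)
    {S : Finset V} {n : ℕ} (h : ¬ Col O S n) : n < S.card := by
  by_contra hcon
  push Not at hcon
  apply h
  refine ⟨fun x => if hx : x ∈ S then (S.equivFin ⟨x, hx⟩ : ℕ) else 0, ?_, ?_⟩
  · intro x hx
    simp only [hx, dif_pos]
    exact lt_of_lt_of_le (S.equivFin ⟨x, hx⟩).2 hcon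
  · intro x hx y hy hxy
    simp only [hx, hy, dif_pos]
    intro he
    have h1 := S.equivFin.injective (Fin.ext he)
    have h2 : x = y := congrArg Subtype.val h1
    rw [h2] at hxy
    exact hO _ _ hxy hxy

/-- Extending a partial embedding by a vertex `v` whose only neighbour `u` in the embedded part
satisfies `R u v`. -/
theorem burr_step {W V : Type*} {R : W → W → Prop} {O : V → V → Prop}
    (hO : ∀ x y, O x y → ¬ O y x) {C : Finset W} {S : Finset V} {v u : W}
    (hv : v ∉ C) (hu : u ∈ C) (huv : R u v) (hvv : ¬ R v v)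
    (honly : ∀ y ∈ C, (R v y ∨ R y v) → y = u) (hvu : ¬ R v u)
    (hC : 1 ≤ C.card)
    (hemb : ∀ S' : Finset V, S' ⊆ S → ¬ Col O S' ((C.card - 1) ^ 2) → ∃ φ : W → V,
      Set.InjOn φ C ∧ (∀ w ∈ C, φ w ∈ S') ∧ ∀ w ∈ C, ∀ w' ∈ C, R w w' → O (φ w) (φ w'))
    (hS : ¬ Col O S (C.card ^ 2)) :
    ∃ φ : W → V, Set.InjOn φ (insert v C : Finset W) ∧ (∀ w ∈ insert v C, φ w ∈ S) ∧
      ∀ w ∈ insert v C, ∀ w' ∈ insert v C, R w w' → O (φ w) (φ w') := by
  obtain ⟨c, hc⟩ : ∃ c, C.card = c + 1 := ⟨C.card - 1, by omega⟩
  have h1 : Col O (S.filter (fun x => (S.filter (fun y => O x y)).card < C.card))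
      (2 * (C.card - 1) + 1) := by
    apply col_of_out hO
    intro x hx
    have h2 := (mem_filter.1 hx).2
    have h3 : ((S.filter (fun x => (S.filter (fun y => O x y)).card < C.card)).filter
        (fun y => O x y)).card ≤ (S.filter (fun y => O x y)).card :=
      card_le_card (filter_subset_filter _ (filter_subset _ _))
    omega
  obtain ⟨φ, hinj, hin, hhom⟩ := hemb
    (S.filter (fun x => C.card ≤ (S.filter (fun y => O x y)).card)) (filter_subset _ _) (by
      intro h4
      apply hS
      refine (h4.union h1).mono ?_ ?_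
      · intro x hx
        simp only [mem_union, mem_filter, hx, true_and]
        omega
      · rw [hc]
        have e1 : c + 1 - 1 = c := by omega
        rw [e1]
        nlinarith)
  have hxu := (mem_filter.1 (hin u hu)).2
  -- a free out-neighbour of φ u
  obtain ⟨y, hyS, hyn⟩ : ∃ y ∈ S.filter (fun y => O (φ u) y), y ∉ C.image φ := by
    by_contra hcon
    push Not at hcon
    have h5 : insert (φ u) (S.filter (fun y => O (φ u) y)) ⊆ C.image φ := by
      intro y hy
      rcases mem_insert.1 hy with rfl | hy
      · exact mem_image_of_mem _ hu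
      · exact hcon y hy
    have h6 := card_le_card h5
    rw [card_insert_of_notMem (by
      intro h; have := (mem_filter.1 h).2; exact hO _ _ this this)] at h6
    have h7 := card_image_le (s := C) (f := φ)
    omega
  rw [mem_filter] at hyS
  have hφ : ∀ w ∈ C, φ w ≠ y := fun w hw he => hyn (mem_image.2 ⟨w, hw, he⟩)
  have hne : ∀ w ∈ C, w ≠ v := fun w hw he => hv (he ▸ hw)
  refine ⟨fun w => if w = v then y else φ w, ?_, ?_, ?_⟩
  · intro w hw w' hw' he
    simp only [coe_insert, Set.mem_insert_iff, mem_coe] at hw hw'
    rcases hw with rfl | hw <;> rcases hw' with rfl | hw'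
    · rfl
    · simp only [if_true, hne w' hw', if_false] at he
      exact absurd he.symm (hφ w' hw')
    · simp only [if_true, hne w hw, if_false] at he
      exact absurd he (hφ w hw)
    · simp only [hne w hw, hne w' hw', if_false] at he
      exact hinj hw hw' he
  · intro w hw
    rcases mem_insert.1 hw with rfl | hw
    · simp only [if_true]; exact hyS.1
    · simp only [hne w hw, if_false]; exact (mem_filter.1 (hin w hw)).1
  · intro w hw w' hw' hww
    rcases mem_insert.1 hw with hw1 | hw1 <;> rcases mem_insert.1 hw' with hw2 | hw2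
    · rw [hw1, hw2] at hww
      exact absurd hww hvv
    · rw [hw1] at hww
      have h8 := honly w' hw2 (Or.inl hww)
      rw [h8] at hww
      exact absurd hww hvu
    · rw [hw2] at hww
      have h8 := honly w hw1 (Or.inr hww)
      simp only [hw2, if_true, hne w hw1, if_false]
      rw [h8]
      exact hyS.2
    · simp only [hne w hw1, hne w' hw2, if_false]
      exact hhom w hw1 w' hw2 hww

/-- Burr's quadratic bound. -/
theorem burr {W V : Type*} {H : SimpleGraph W} (hH : H.IsTree) (R : W → W → Prop)
    (hR : ∀ x y, R x y → ¬ R y x) (hRH : ∀ x y, R x y → H.Adj x y) (O : V → V → Prop)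
    (hO : ∀ x y, O x y → ¬ O y x) :
    ∀ (c : ℕ) (C : Finset W), C.card = c + 1 → ∀ S : Finset V, ¬ Col O S (c ^ 2) →
      ∃ φ : W → V, Set.InjOn φ C ∧ (∀ w ∈ C, φ w ∈ S) ∧
        ∀ w ∈ C, ∀ w' ∈ C, R w w' → O (φ w) (φ w') := by
  intro c
  induction c with
  | zero =>
    intro C hC S hS
    obtain ⟨v, rfl⟩ := card_eq_one.1 hC
    obtain ⟨x, hx⟩ : S.Nonempty := card_pos.1 (by
      have := card_of_not_col hO hS; omega)
    refine ⟨fun _ => x, by simp, fun _ _ => hx, ?_⟩
    intro w hw w' hw' h
    rw [mem_singleton] at hw hw'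
    subst hw; subst hw'
    exact absurd h (hR _ _ h)
  | succ c ih =>
    intro C hC S hS
    have hirr : ∀ x, ¬ R x x := fun x h => hR _ _ h h
    obtain ⟨v, hv, huniq⟩ := low_nbr hH C (card_pos.1 (by omega))
    have hC' : (C.erase v).card = c + 1 := by rw [card_erase_of_mem hv]; omega
    have hins : insert v (C.erase v) = C := insert_erase hv
    by_cases hex : ∃ u ∈ C.erase v, R v u ∨ R u v
    · obtain ⟨u, hu, huv⟩ := hex
      have huC := mem_of_mem_erase hu
      have hadjvu : H.Adj v u := by
        rcases huv with h | h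
        · exact hRH _ _ h
        · exact (hRH _ _ h).symm
      have honly : ∀ y ∈ C.erase v, (R v y ∨ R y v) → y = u := by
        intro y hy hvy
        apply huniq y (mem_of_mem_erase hy) u huC _ hadjvu
        rcases hvy with h | h
        · exact hRH _ _ h
        · exact (hRH _ _ h).symm
      rcases huv with h | h
      · -- R v u : flip everything
        have := burr_step (R := fun x y => R y x) (O := fun x y => O y x) (C := C.erase v)
          (S := S) (v := v) (u := u) (fun x y h h' => hO _ _ h' h) (notMem_erase v C) hu h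
          (hirr v) (fun y hy hvy => honly y hy hvy.symm) (hR _ _ h) (by omega)
          (by
            intro S' _ hS''
            rw [hC'] at hS''
            obtain ⟨φ, h1, h2, h3⟩ := ih (C.erase v) hC' S' (fun h4 => hS'' h4.flip)
            exact ⟨φ, h1, h2, fun w hw w' hw' h5 => h3 w' hw' w hw h5⟩)
          (by
            rw [hC']
            exact fun h4 => hS h4.flip)
        rw [hins] at this
        obtain ⟨φ, h1, h2, h3⟩ := this
        exact ⟨φ, h1, h2, fun w hw w' hw' h5 => h3 w' hw' w hw h5⟩
      · have := burr_step (R := R) (O := O) (C := C.erase v)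
          (S := S) (v := v) (u := u) hO (notMem_erase v C) hu h
          (hirr v) honly (hR _ _ h) (by omega)
          (by
            intro S' _ hS''
            rw [hC'] at hS''
            exact ih (C.erase v) hC' S' hS'')
          (by rw [hC']; exact hS)
        rw [hins] at this
        exact this
    · push Not at hex
      obtain ⟨φ, hinj, hin, hhom⟩ := ih (C.erase v) hC' S (fun h => hS (h.mono (Subset.refl _) (by
        nlinarith)))
      have hcard := card_of_not_col hO hS
      obtain ⟨y, hyS, hyn⟩ : ∃ y ∈ S, y ∉ (C.erase v).image φ := by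
        by_contra hcon
        push Not at hcon
        have h6 := card_le_card (show S ⊆ (C.erase v).image φ from hcon)
        have h7 := card_image_le (s := C.erase v) (f := φ)
        nlinarith
      have hφ : ∀ w ∈ C.erase v, φ w ≠ y := fun w hw he => hyn (mem_image.2 ⟨w, hw, he⟩)
      have hne : ∀ w ∈ C.erase v, w ≠ v := fun w hw => (mem_erase.1 hw).1
      have hcases : ∀ w ∈ C, w = v ∨ w ∈ C.erase v := by
        intro w hw
        by_cases h : w = v
        · exact Or.inl h
        · exact Or.inr (mem_erase.2 ⟨h, hw⟩)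
      refine ⟨fun w => if w = v then y else φ w, ?_, ?_, ?_⟩
      · intro w hw w' hw' he
        rcases hcases w hw with rfl | hw <;> rcases hcases w' hw' with rfl | hw'
        · rfl
        · simp only [if_true, hne w' hw', if_false] at he
          exact absurd he.symm (hφ w' hw')
        · simp only [if_true, hne w hw, if_false] at he
          exact absurd he (hφ w hw)
        · simp only [hne w hw, hne w' hw', if_false] at he
          exact hinj hw hw' he
      · intro w hw
        rcases hcases w hw with rfl | hw
        · simp only [if_true]; exact hyS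
        · simp only [hne w hw, if_false]; exact hin w hw
      · intro w hw w' hw' hww
        rcases hcases w hw with rfl | hw <;> rcases hcases w' hw' with rfl | hw'
        · exact absurd hww (hirr _)
        · exact absurd hww (hex w' hw').1
        · exact absurd hww (hex w hw).2
        · simp only [hne w hw, hne w' hw', if_false]
          exact hhom w hw w' hw' hww

/-- Attaching all leaves at once: all images of inner vertices have large in-degree, and
out-degree at least the number of out-leaves plus the number of inner vertices minus one. -/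
theorem leaves_embed {W V : Type*} [Fintype W] [Fintype V] {R : W → W → Prop}
    {O : V → V → Prop} (hO : ∀ x y, O x y → ¬ O y x) (N : Finset W) (z : W → W)
    (hz : ∀ w, w ∉ N → z w ∈ N) (hzR : ∀ w, w ∉ N → (R (z w) w ∨ R w (z w)))
    (hR : ∀ x y, R x y → ¬ R y x)
    (honly : ∀ v w, R v w → (v ∈ N ∧ w ∈ N) ∨ (v ∈ N ∧ w ∉ N ∧ z w = v) ∨
      (w ∈ N ∧ v ∉ N ∧ z v = w))
    (φ : W → V) (hinj : Set.InjOn φ N) (hhom : ∀ u ∈ N, ∀ v ∈ N, R u v → O (φ u) (φ v))
    (hout : ∀ u ∈ N, (univ.filter (fun w => w ∉ N ∧ R (z w) w)).card + N.card ≤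
      (No O (φ u)).card + 1)
    (hin : ∀ u ∈ N, Fintype.card W ≤ (Ni O (φ u)).card) :
    ∃ f : W → V, Function.Injective f ∧ ∀ v w, R v w → O (f v) (f w) := by
  let ι := {w : W // w ∉ N}
  let t : ι → Finset V := fun w =>
    if R (z w.1) w.1 then No O (φ (z w.1)) \ N.image φ else Ni O (φ (z w.1)) \ N.image φ
  have hcardN : N.card ≤ Fintype.card W := card_le_univ N
  have himg : (N.image φ).card = N.card := card_image_of_injOn hinj
  have hsd : ∀ (u : W), u ∈ N → ∀ F : Finset V, φ u ∉ F →
      F.card + 1 ≤ (F \ N.image φ).card + N.card := by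
    intro u hu F hF
    have h1 : F ⊆ (F \ N.image φ) ∪ (N.image φ).erase (φ u) := by
      intro x hx
      by_cases hxi : x ∈ N.image φ
      · apply mem_union_right
        rw [mem_erase]
        exact ⟨fun he => hF (he ▸ hx), hxi⟩
      · exact mem_union_left _ (mem_sdiff.2 ⟨hx, hxi⟩)
    have h2 := (card_le_card h1).trans (card_union_le _ _)
    have h3 : φ u ∈ N.image φ := mem_image_of_mem _ hu
    have h4 := card_erase_add_one h3
    omega
  have hirrO : ∀ x, ¬ O x x := fun x h => hO _ _ h h
  have hNo : ∀ u ∈ N, (univ.filter (fun w => w ∉ N ∧ R (z w) w)).card ≤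
      (No O (φ u) \ N.image φ).card := by
    intro u hu
    have h1 := hsd u hu (No O (φ u)) (fun h => hirrO _ (mem_No.1 h))
    have h2 := hout u hu
    omega
  have hcardι : Fintype.card ι + N.card = Fintype.card W := by
    have h1 : Fintype.card ι = (univ.filter (fun w : W => w ∉ N)).card :=
      Fintype.card_subtype _
    have h2 : (univ.filter (fun w : W => w ∉ N)) = univ \ N := by
      ext w; simp
    rw [h1, h2, card_sdiff_of_subset (subset_univ _), card_univ]
    omega
  have hNi : ∀ u ∈ N, Fintype.card ι ≤ (Ni O (φ u) \ N.image φ).card := by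
    intro u hu
    have h1 := hsd u hu (Ni O (φ u)) (fun h => hirrO _ (mem_Ni.1 h))
    have h2 := hin u hu
    omega
  obtain ⟨g, hg, hgt⟩ : ∃ g : ι → V, Function.Injective g ∧ ∀ i, g i ∈ t i := by
    rw [← all_card_le_biUnion_card_iff_exists_injective t]
    intro s
    by_cases hex : ∃ w ∈ s, ¬ R (z w.1) w.1
    · obtain ⟨w, hw, hwR⟩ := hex
      have h1 : t w = Ni O (φ (z w.1)) \ N.image φ := by simp only [t]; rw [if_neg hwR]
      have h2 : t w ⊆ s.biUnion t := subset_biUnion_of_mem t hw
      have h3 := card_le_card h2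
      have h4 := hNi (z w.1) (hz w.1 w.2)
      have h5 : s.card ≤ Fintype.card ι := card_le_univ s
      rw [h1] at h3
      omega
    · push Not at hex
      rcases s.eq_empty_or_nonempty with rfl | ⟨w, hw⟩
      · simp
      · have h1 : t w = No O (φ (z w.1)) \ N.image φ := by
          simp only [t]; rw [if_pos (hex w hw)]
        have h2 : t w ⊆ s.biUnion t := subset_biUnion_of_mem t hw
        have h3 := card_le_card h2
        have h4 := hNo (z w.1) (hz w.1 w.2)
        have h5 : s.card ≤ (univ.filter (fun w => w ∉ N ∧ R (z w) w)).card := by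
          rw [← card_map ⟨Subtype.val, Subtype.val_injective⟩]
          apply card_le_card
          intro x hx
          simp only [mem_map, Function.Embedding.coeFn_mk] at hx
          obtain ⟨i, hi, rfl⟩ := hx
          exact mem_filter.2 ⟨mem_univ _, i.2, hex i hi⟩
        rw [h1] at h3
        omega
  have hgi : ∀ i, g i ∉ N.image φ := by
    intro i
    have h := hgt i
    simp only [t] at h
    split_ifs at h
    · exact (mem_sdiff.1 h).2
    · exact (mem_sdiff.1 h).2
  let f : W → V := fun w => if h : w ∉ N then g ⟨w, h⟩ else φ w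
  have fN : ∀ w ∈ N, f w = φ w := by
    intro w hw; simp only [f]; rw [dif_neg (not_not.2 hw)]
  have fL : ∀ w (h : w ∉ N), f w = g ⟨w, h⟩ := by
    intro w h; simp only [f]; rw [dif_pos h]
  refine ⟨f, ?_, ?_⟩
  · intro v w hvw
    by_cases hv : v ∈ N <;> by_cases hw : w ∈ N
    · rw [fN v hv, fN w hw] at hvw
      exact hinj hv hw hvw
    · rw [fN v hv, fL w hw] at hvw
      exact absurd (hvw ▸ mem_image_of_mem φ hv) (hgi _)
    · rw [fN w hw, fL v hv] at hvw
      exact absurd (hvw ▸ mem_image_of_mem φ hw) (hgi _)
    · rw [fL v hv, fL w hw] at hvw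
      exact congrArg Subtype.val (hg hvw)
  · intro v w hvw
    rcases honly v w hvw with ⟨hv, hw⟩ | ⟨hv, hw, hzw⟩ | ⟨hw, hv, hzv⟩
    · rw [fN v hv, fN w hw]; exact hhom v hv w hw hvw
    · rw [fN v hv, fL w hw]
      have h := hgt ⟨w, hw⟩
      simp only [t] at h
      rw [if_pos (by rw [hzw]; exact hvw), mem_sdiff, mem_No, hzw] at h
      exact h.1
    · rw [fN w hw, fL v hv]
      have h := hgt ⟨v, hv⟩
      simp only [t] at h
      rw [if_neg (by rw [hzv]; exact hR _ _ hvw), mem_sdiff, mem_Ni, hzv] at h
      exact h.1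

end Pool.Helper56.Havet
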