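import Pool.Agent.Helper56.Havet.Core

/-!
# Existence of a good arc in a critical oriented graph
-/

set_option autoImplicit false

namespace Pool.Helper56.Havet

open Finset
open scoped Classical

variable {V : Type*} [Fintype V]

/-- out-neighbours -/
noncomputable def No (O : V → V → Prop) (x : V) : Finset V := univ.filter (fun y => O x y)
/-- in-neighbours -/
noncomputable def Ni (O : V → V → Prop) (x : V) : Finset V := univ.filter (fun y => O y x)

theorem mem_No {O : V → V → Prop} {x y : V} : y ∈ No O x ↔ O x y := by simp [No]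
theorem mem_Ni {O : V → V → Prop} {x y : V} : y ∈ Ni O x ↔ O y x := by simp [Ni]

theorem Ni_flip (O : V → V → Prop) (x : V) : Ni (fun x y => O y x) x = No O x := rfl
theorem No_flip (O : V → V → Prop) (x : V) : No (fun x y => O y x) x = Ni O x := rfl

/-- The Hall type conditions for placing the leaves of a double star at the arc `x → y`. -/
def Good (O : V → V → Prop) (a b c d : ℕ) (x y : V) : Prop :=
  O x y ∧ a ≤ (No O x \ {y}).card ∧ b ≤ (Ni O x).card ∧ c ≤ (No O y).card ∧
  d ≤ (Ni O y \ {x}).card ∧
  a + c ≤ ((No O x \ {y}) ∪ No O y).card ∧ a + d ≤ ((No O x \ {y}) ∪ (Ni O y \ {x})).card ∧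
  b + c ≤ (Ni O x ∪ No O y).card ∧ b + d ≤ (Ni O x ∪ (Ni O y \ {x})).card ∧
  a + b + c + d ≤ ((No O x \ {y}) ∪ Ni O x).card ∧
  a + b + c + d ≤ (No O y ∪ (Ni O y \ {x})).card

theorem Good.flip {O : V → V → Prop} {a b c d : ℕ} {x y : V}
    (h : Good (fun x y => O y x) d c b a x y) : Good O a b c d y x := by
  obtain ⟨h0, h1, h2, h3, h4, h5, h6, h7, h8, h9, h10⟩ := h
  simp only [Ni_flip, No_flip] at *
  refine ⟨h0, h4, h3, h2, h1, ?_, ?_, ?_, ?_, ?_, ?_⟩
  · rw [union_comm]; omega
  · rw [union_comm]; omega
  · rw [union_comm]; omega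
  · rw [union_comm]; omega
  · rw [union_comm]; omega
  · rw [union_comm]; omega

theorem col_univ_of_erase {O : V → V → Prop} (hO : ∀ x y, O x y → ¬ O y x) {n : ℕ} (v : V)
    (h : ∃ c : V → ℕ, (∀ x, x ≠ v → c x < n) ∧ ∀ x, x ≠ v → ∀ y, y ≠ v → O x y → c x ≠ c y)
    (hd : (No O v).card + (Ni O v).card < n) : Col O univ n := by
  obtain ⟨c, h1, h2⟩ := h
  have h3 : Col O (univ.erase v) n :=
    ⟨c, fun x hx => h1 x (mem_erase.1 hx).1, fun x hx y hy => h2 x (mem_erase.1 hx).1 y
      (mem_erase.1 hy).1⟩
  have h4 := h3.insert (v := v) hO (notMem_erase v univ) (by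
    refine lt_of_le_of_lt (card_le_card (filter_subset_filter _ (subset_univ _))) ?_
    rw [deg_eq hO]
    exact hd)
  rwa [insert_erase (mem_univ v)] at h4

section

variable {O : V → V → Prop} (hO : ∀ x y, O x y → ¬ O y x)
include hO

theorem card_No_sdiff {x y : V} (h : O x y) : (No O x \ {y}).card + 1 = (No O x).card := by
  have hy : y ∈ No O x := mem_No.2 h
  rw [sdiff_singleton_eq_erase]
  exact card_erase_add_one hy

theorem card_Ni_sdiff {x y : V} (h : O x y) : (Ni O y \ {x}).card + 1 = (Ni O y).card := by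
  have hx : x ∈ Ni O y := mem_Ni.2 h
  rw [sdiff_singleton_eq_erase]
  exact card_erase_add_one hx

theorem disj_out_in (x : V) : Disjoint (No O x) (Ni O x) := by
  rw [disjoint_left]
  intro y h h'
  exact hO _ _ (mem_No.1 h) (mem_Ni.1 h')

/-- criterion -/
theorem good_of {a b c d : ℕ} (hs : 1 ≤ a + b + c + d)
    (hdeg : ∀ v, 2 * (a + b + c + d) ≤ (No O v).card + (Ni O v).card)
    {x y : V} (h : O x y) (h1 : a + 1 ≤ (No O x).card) (h2 : b ≤ (Ni O x).card)
    (h3 : c ≤ (No O y).card) (h4 : d + 1 ≤ (Ni O y).card)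
    (h5 : a + c ≤ ((No O x \ {y}) ∪ No O y).card)
    (h6 : a + d ≤ ((No O x \ {y}) ∪ (Ni O y \ {x})).card)
    (h7 : b + c ≤ (Ni O x ∪ No O y).card) (h8 : b + d ≤ (Ni O x ∪ (Ni O y \ {x})).card) :
    Good O a b c d x y := by
  have e1 := card_No_sdiff hO h
  have e2 := card_Ni_sdiff hO h
  refine ⟨h, by omega, h2, h3, by omega, h5, h6, h7, h8, ?_, ?_⟩
  · rw [card_union_of_disjoint]
    · have := hdeg x; omega
    · exact (disj_out_in hO x).mono_left sdiff_subset
  · rw [card_union_of_disjoint]
    · have := hdeg y; omega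
    · exact (disj_out_in hO y).mono_right sdiff_subset

/-- The case where both ends carry the mixed types of leaves. -/
theorem exists_good_bc {a b c d : ℕ} (hb : 1 ≤ b) (hc : 1 ≤ c)
    (hdeg : ∀ v, 2 * (a + b + c + d) ≤ (No O v).card + (Ni O v).card)
    (hcol : ¬ Col O univ (2 * (a + b + c + d))) : ∃ x y, Good O a b c d x y := by
  by_contra hno
  push Not at hno
  apply hcol
  -- failing arcs
  have hfail : ∀ x y, O x y → a + c ≤ (No O x).card → b + d ≤ (Ni O x).card →
      a + c ≤ (No O y).card → b + d ≤ (Ni O y).card →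
      ((No O x).card ≤ a + d ∧ (Ni O y).card ≤ a + d) ∨
      ((Ni O x).card + 1 ≤ b + c ∧ (No O y).card + 1 ≤ b + c) := by
    intro x y hxy h1 h2 h3 h4
    by_contra hcon
    have e1 := card_No_sdiff hO hxy
    have e2 := card_Ni_sdiff hO hxy
    apply hno x y
    apply good_of hO (by omega) hdeg hxy (by omega) (by omega) (by omega) (by omega)
    · exact le_trans h3 (card_le_card subset_union_right)
    · have u1 : (No O x \ {y}).card ≤ ((No O x \ {y}) ∪ (Ni O y \ {x})).card :=
        card_le_card subset_union_left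
      have u2 : (Ni O y \ {x}).card ≤ ((No O x \ {y}) ∪ (Ni O y \ {x})).card :=
        card_le_card subset_union_right
      by_contra h6
      apply hcon
      left
      omega
    · have u1 : (Ni O x).card ≤ (Ni O x ∪ No O y).card := card_le_card subset_union_left
      have u2 : (No O y).card ≤ (Ni O x ∪ No O y).card := card_le_card subset_union_right
      by_contra h7
      apply hcon
      right
      omega
    · exact le_trans h2 (card_le_card subset_union_left)
  have c1 : Col O (univ.filter (fun x => (No O x).card < a + c)) (2 * (a + c - 1) + 1) := by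
    apply col_of_out hO
    intro x hx
    have h1 := (mem_filter.1 hx).2
    have h2 : ((univ.filter (fun x => (No O x).card < a + c)).filter (fun y => O x y)).card ≤
        (No O x).card := card_le_card (filter_subset_filter _ (subset_univ _))
    omega
  have c2 : Col O (univ.filter (fun x => (Ni O x).card < b + d)) (2 * (b + d - 1) + 1) := by
    apply col_of_in hO
    intro x hx
    have h1 := (mem_filter.1 hx).2
    have h2 : ((univ.filter (fun x => (Ni O x).card < b + d)).filter (fun y => O y x)).card ≤
        (Ni O x).card := card_le_card (filter_subset_filter _ (subset_univ _))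
    omega
  have c3 : Col O (univ.filter (fun x => a + c ≤ (No O x).card ∧ b + d ≤ (Ni O x).card)) 2 := by
    by_cases hcd : c ≤ d
    · refine ⟨fun x => if (No O x).card ≤ a + d then 0 else 1, ?_, ?_⟩
      · intro x _; dsimp only; split_ifs <;> omega
      · intro x hx y hy hxy
        obtain ⟨hx1, hx2⟩ := (mem_filter.1 hx).2
        obtain ⟨hy1, hy2⟩ := (mem_filter.1 hy).2
        have hd := hdeg y
        rcases hfail x y hxy hx1 hx2 hy1 hy2 with h | h
        · have : ¬ (No O y).card ≤ a + d := by omega
          simp [h.1, this]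
        · omega
    · refine ⟨fun x => if (Ni O x).card + 1 ≤ b + c then 0 else 1, ?_, ?_⟩
      · intro x _; dsimp only; split_ifs <;> omega
      · intro x hx y hy hxy
        obtain ⟨hx1, hx2⟩ := (mem_filter.1 hx).2
        obtain ⟨hy1, hy2⟩ := (mem_filter.1 hy).2
        have hd := hdeg y
        rcases hfail x y hxy hx1 hx2 hy1 hy2 with h | h
        · omega
        · have : ¬ (Ni O y).card + 1 ≤ b + c := by omega
          simp [h.1, this]
  refine ((c1.union c2).union c3).mono ?_ (by omega)
  intro x _
  simp only [mem_union, mem_filter, mem_univ, true_and]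
  by_cases h1 : (No O x).card < a + c
  · exact Or.inl (Or.inl h1)
  · by_cases h2 : (Ni O x).card < b + d
    · exact Or.inl (Or.inr h2)
    · exact Or.inr ⟨by omega, by omega⟩

/-- The antidirected case. -/
theorem exists_good_ad {a d : ℕ} (ha : 1 ≤ a) (hd : 1 ≤ d)
    (hdeg : ∀ v, 2 * (a + 0 + 0 + d) ≤ (No O v).card + (Ni O v).card)
    (hne : Nonempty V) : ∃ x y, Good O a 0 0 d x y := by
  by_contra hno
  push Not at hno
  have hbig : ∀ x y, O x y → a + d + 1 ≤ (No O x).card → (Ni O y).card ≤ d := by
    intro x y hxy h1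
    by_contra hcon
    have e1 := card_No_sdiff hO hxy
    have e2 := card_Ni_sdiff hO hxy
    apply hno x y
    apply good_of hO (by omega) hdeg hxy (by omega) (by omega) (by omega) (by omega)
    · have u1 : (No O x \ {y}).card ≤ ((No O x \ {y}) ∪ No O y).card :=
        card_le_card subset_union_left
      omega
    · have u1 : (No O x \ {y}).card ≤ ((No O x \ {y}) ∪ (Ni O y \ {x})).card :=
        card_le_card subset_union_left
      omega
    · omega
    · have u2 : (Ni O y \ {x}).card ≤ (Ni O x ∪ (Ni O y \ {x})).card :=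
        card_le_card subset_union_right
      omega
  -- the set Z
  have hZ : univ.filter (fun x => a + d + 1 ≤ (No O x).card ∧ (Ni O x).card ≤ d) = ∅ := by
    by_contra hZne
    set Z := univ.filter (fun x => a + d + 1 ≤ (No O x).card ∧ (Ni O x).card ≤ d) with hZdef
    have h1 := sum_out_eq_sum_in O Z Z
    have h2 : ∑ x ∈ Z, (a + d + 1) ≤ ∑ x ∈ Z, (Z.filter (fun y => O x y)).card := by
      apply sum_le_sum
      intro x hx
      have hx' := (mem_filter.1 hx).2
      refine le_trans hx'.1 (card_le_card ?_)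
      intro y hy
      have hxy := mem_No.1 hy
      have hy1 := hbig x y hxy hx'.1
      have hy2 := hdeg y
      refine mem_filter.2 ⟨mem_filter.2 ⟨mem_univ _, ?_, hy1⟩, hxy⟩
      omega
    have h3 : ∑ y ∈ Z, (Z.filter (fun x => O x y)).card ≤ ∑ y ∈ Z, d := by
      apply sum_le_sum
      intro y hy
      have hy' := (mem_filter.1 hy).2
      refine le_trans (card_le_card ?_) hy'.2
      exact filter_subset_filter _ (subset_univ _)
    simp only [sum_const, smul_eq_mul] at h2 h3
    have h4 : 0 < Z.card := card_pos.2 (nonempty_iff_ne_empty.2 hZne)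
    nlinarith
  have hout : ∀ x, (No O x).card ≤ a + d := by
    intro x
    by_contra hcon
    obtain ⟨y, hy⟩ : (No O x).Nonempty := card_pos.1 (by omega)
    have hxy := mem_No.1 hy
    have hy1 := hbig x y hxy (by omega)
    have hy2 := hdeg y
    have : y ∈ univ.filter (fun x => a + d + 1 ≤ (No O x).card ∧ (Ni O x).card ≤ d) :=
      mem_filter.2 ⟨mem_univ _, by omega, hy1⟩
    rw [hZ] at this
    simp at this
  have hall : ∀ x, (No O x).card = a + d := by
    have h1 : ∑ x : V, (No O x).card = ∑ x : V, (Ni O x).card := sum_out_eq_sum_in O univ univ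
    have h2 : ∑ x : V, (No O x).card ≤ ∑ x : V, (a + d) := sum_le_sum fun x _ => hout x
    have h3 : ∑ x : V, (a + d) ≤ ∑ x : V, (Ni O x).card := by
      apply sum_le_sum
      intro x _
      have := hdeg x; have := hout x; omega
    have h4 := (sum_eq_sum_iff_of_le fun x (_ : x ∈ (univ : Finset V)) => hout x).1 (by omega)
    exact fun x => h4 x (mem_univ x)
  have hall' : ∀ x, (Ni O x).card = a + d := by
    have h1 : ∑ x : V, (No O x).card = ∑ x : V, (Ni O x).card := sum_out_eq_sum_in O univ univ
    have h3 : ∀ x ∈ (univ : Finset V), a + d ≤ (Ni O x).card := by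
      intro x _
      have := hdeg x; have := hall x; omega
    have h5 : ∑ x : V, (No O x).card = ∑ x : V, (a + d) := sum_congr rfl fun x _ => hall x
    have h4 := (sum_eq_sum_iff_of_le h3).1 (by omega)
    exact fun x => (h4 x (mem_univ x)).symm
  obtain ⟨x⟩ := hne
  obtain ⟨y, hy, z, hz, hyz⟩ := one_lt_card.1 (show 1 < (No O x).card by rw [hall x]; omega)
  have twin : ∀ y z, y ∈ No O x → z ∈ No O x → y ≠ z → O z y := by
    intro y z hy hz hyz
    have hxy := mem_No.1 hy
    have e1 := card_No_sdiff hO hxy
    have e2 := card_Ni_sdiff hO hxy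
    rw [hall x] at e1
    rw [hall' y] at e2
    have h6 : ¬ (a + d ≤ ((No O x \ {y}) ∪ (Ni O y \ {x})).card) := by
      intro h6
      apply hno x y
      apply good_of hO (by omega) hdeg hxy (by rw [hall x]; omega) (by omega) (by omega)
        (by rw [hall' y]; omega)
      · have u1 : (No O y).card ≤ ((No O x \ {y}) ∪ No O y).card :=
          card_le_card subset_union_right
        rw [hall y] at u1
        omega
      · exact h6
      · omega
      · have u2 : (Ni O x).card ≤ (Ni O x ∪ (Ni O y \ {x})).card :=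
          card_le_card subset_union_left
        rw [hall' x] at u2
        omega
    have s1 : No O x \ {y} = (No O x \ {y}) ∪ (Ni O y \ {x}) :=
      eq_of_subset_of_card_le subset_union_left (by omega)
    have s2 : Ni O y \ {x} = (No O x \ {y}) ∪ (Ni O y \ {x}) :=
      eq_of_subset_of_card_le subset_union_right (by omega)
    have h7 : z ∈ Ni O y \ {x} := by
      rw [s2, ← s1]
      simp [hz, hyz.symm]
    exact mem_Ni.1 (mem_sdiff.1 h7).1
  exact hO _ _ (twin y z hy hz hyz) (twin z y hz hy hyz.symm)

/-- The case `c = 0`, `b ≥ 1`. -/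
theorem exists_good_c {a b d : ℕ} (hb : 1 ≤ b) (hd : 1 ≤ d)
    (hdeg : ∀ v, 2 * (a + b + 0 + d) ≤ (No O v).card + (Ni O v).card)
    (hcol : ¬ Col O univ (2 * (a + b + 0 + d))) : ∃ x y, Good O a b 0 d x y := by
  by_contra hno
  push Not at hno
  apply hcol
  -- failing arcs
  have F1 : ∀ x y, O x y → a + 1 ≤ (No O x).card → b ≤ (Ni O x).card → d + 1 ≤ (Ni O y).card →
      ((No O x).card ≤ a + d ∧ (Ni O y).card ≤ a + d) ∨
      ((Ni O x).card + 1 ≤ b + d ∧ (Ni O y).card ≤ b + d) := by
    intro x y hxy h1 h2 h4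
    by_contra hcon
    have e1 := card_No_sdiff hO hxy
    have e2 := card_Ni_sdiff hO hxy
    apply hno x y
    apply good_of hO (by omega) hdeg hxy (by omega) (by omega) (by omega) (by omega)
    · have u1 : (No O x \ {y}).card ≤ ((No O x \ {y}) ∪ No O y).card :=
        card_le_card subset_union_left
      omega
    · have u1 : (No O x \ {y}).card ≤ ((No O x \ {y}) ∪ (Ni O y \ {x})).card :=
        card_le_card subset_union_left
      have u2 : (Ni O y \ {x}).card ≤ ((No O x \ {y}) ∪ (Ni O y \ {x})).card :=
        card_le_card subset_union_right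
      by_contra h6
      apply hcon
      left
      omega
    · have u1 : (Ni O x).card ≤ (Ni O x ∪ No O y).card := card_le_card subset_union_left
      omega
    · have u1 : (Ni O x).card ≤ (Ni O x ∪ (Ni O y \ {x})).card :=
        card_le_card subset_union_left
      have u2 : (Ni O y \ {x}).card ≤ (Ni O x ∪ (Ni O y \ {x})).card :=
        card_le_card subset_union_right
      by_contra h8
      apply hcon
      right
      omega
  -- no arcs from W to C1
  have F2 : ∀ x y, a + 1 ≤ (No O x).card → b ≤ (Ni O x).card → (No O y).card ≤ a → ¬ O x y := by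
    intro x y h1 h2 h3 hxy
    have hy := hdeg y
    rcases F1 x y hxy h1 h2 (by omega) with h | h <;> omega
  set C1 := univ.filter (fun x => (No O x).card ≤ a) with hC1
  set C3 := univ.filter (fun x => a + 1 ≤ (No O x).card ∧ b + d ≤ (Ni O x).card) with hC3
  set P := C3.filter (fun x => ∃ y ∈ C3, O x y) with hP
  set E := univ.filter (fun x => (Ni O x).card < b + d) with hE
  have mC1 : ∀ x, x ∈ C1 ↔ (No O x).card ≤ a := fun x => by simp [hC1]
  have mC3 : ∀ x, x ∈ C3 ↔ a + 1 ≤ (No O x).card ∧ b + d ≤ (Ni O x).card := fun x => by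
    simp [hC3]
  have mP : ∀ x, x ∈ P ↔ x ∈ C3 ∧ ∃ y ∈ C3, O x y := fun x => by simp [hP]
  have F3 : ∀ x ∈ C3, ∀ y ∈ C3, O x y → (No O x).card ≤ a + d ∧ (Ni O y).card ≤ a + d := by
    intro x hx y hy hxy
    rw [mC3] at hx hy
    rcases F1 x y hxy hx.1 (by omega) (by omega) with h | h
    · exact h
    · omega
  have F4 : ∀ x ∈ P, ∀ y ∈ C1 ∪ P, ¬ O x y := by
    intro x hx y hy hxy
    have hx3 := ((mP x).1 hx).1
    rcases mem_union.1 hy with hy | hy
    · have hx3' := (mC3 x).1 hx3
      exact F2 x y hx3'.1 (by omega) ((mC1 y).1 hy) hxy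
    · obtain ⟨hy3, z, hz3, hyz⟩ := (mP y).1 hy
      have h1 := F3 x hx3 y hy3 hxy
      have h2 := F3 y hy3 z hz3 hyz
      have h3 := hdeg y
      omega
  obtain ⟨I, hI, hI1, hI2, hI3⟩ := exists_indep hO a (C1 ∪ P) (by
    intro x hx
    rcases mem_union.1 hx with h | h
    · refine le_trans (card_le_card (filter_subset_filter _ (subset_univ _))) ((mC1 x).1 h)
    · have : (C1 ∪ P).filter (fun y => O x y) = ∅ := by
        rw [filter_eq_empty_iff]
        exact fun y hy => F4 x h y hy
      rw [this]; simp)
  have c1 : Col O (I ∪ (C3 \ P)) 1 := by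
    refine ⟨fun _ => 0, by simp, ?_⟩
    intro x hx y hy hxy
    exfalso
    rcases mem_union.1 hx with hx | hx <;> rcases mem_union.1 hy with hy | hy
    · exact hI2 x hx y hy hxy
    · have hy3 := (mem_sdiff.1 hy).1
      have hyP := (mem_sdiff.1 hy).2
      rcases mem_union.1 (hI hx) with hx1 | hxP
      · have h1 := hI1 x hx
        have h2 : (C1 ∪ P).filter (fun y => O x y) ⊆ No O x :=
          filter_subset_filter _ (subset_univ _)
        have h3 := eq_of_subset_of_card_le h2 (by rw [h1]; exact (mC1 x).1 hx1)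
        have h4 : y ∈ No O x := mem_No.2 hxy
        rw [← h3] at h4
        rcases mem_union.1 (mem_filter.1 h4).1 with h5 | h5
        · have := (mC1 y).1 h5
          have := (mC3 y).1 hy3
          omega
        · exact hyP h5
      · have h1 := hI1 x hx
        have h2 : (C1 ∪ P).filter (fun y => O x y) = ∅ := by
          rw [filter_eq_empty_iff]
          exact fun y hy => F4 x hxP y hy
        rw [h2, card_empty] at h1
        have h3 := F3 x ((mP x).1 hxP).1 y hy3 hxy
        have := (mC3 y).1 hy3
        omega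
    · have hx3 := (mem_sdiff.1 hx).1
      have hx3' := (mC3 x).1 hx3
      rcases mem_union.1 (hI hy) with hy1 | hyP
      · exact F2 x y hx3'.1 (by omega) ((mC1 y).1 hy1) hxy
      · exact (mem_sdiff.1 hx).2 ((mP x).2 ⟨hx3, y, ((mP y).1 hyP).1, hxy⟩)
    · exact (mem_sdiff.1 hx).2 ((mP x).2 ⟨(mem_sdiff.1 hx).1, y, (mem_sdiff.1 hy).1, hxy⟩)
  have c2 : Col O E (2 * (b + d - 1) + 1) := by
    apply col_of_in hO
    intro x hx
    have h1 := (mem_filter.1 hx).2
    have h2 : (E.filter (fun y => O y x)).card ≤ (Ni O x).card :=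
      card_le_card (filter_subset_filter _ (subset_univ _))
    omega
  refine ((hI3.union c1).union c2).mono ?_ (by omega)
  intro x _
  simp only [mem_union, mem_sdiff]
  by_cases h1 : x ∈ C1
  · by_cases h2 : x ∈ I
    · exact Or.inl (Or.inr (Or.inl h2))
    · exact Or.inl (Or.inl ⟨Or.inl h1, h2⟩)
  · by_cases h2 : x ∈ E
    · exact Or.inr h2
    · have h3 : x ∈ C3 := by
        rw [mC1] at h1
        rw [hE, mem_filter] at h2
        push Not at h2
        have := h2 (mem_univ x)
        exact (mC3 x).2 ⟨by omega, this⟩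
      by_cases h4 : x ∈ P
      · by_cases h5 : x ∈ I
        · exact Or.inl (Or.inr (Or.inl h5))
        · exact Or.inl (Or.inl ⟨Or.inr h4, h5⟩)
      · exact Or.inl (Or.inr (Or.inr ⟨h3, h4⟩))

end

theorem exists_good {O : V → V → Prop} (hO : ∀ x y, O x y → ¬ O y x) {a b c d : ℕ}
    (hab : 1 ≤ a + b) (hcd : 1 ≤ c + d)
    (hdeg : ∀ v, 2 * (a + b + c + d) ≤ (No O v).card + (Ni O v).card)
    (hcol : ¬ Col O univ (2 * (a + b + c + d))) : ∃ x y, Good O a b c d x y := by
  rcases Nat.eq_zero_or_pos b with rfl | hb <;> rcases Nat.eq_zero_or_pos c with rfl | hc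
  · have hne : Nonempty V := by
      by_contra hempty
      rw [not_nonempty_iff] at hempty
      exact hcol ⟨fun _ => 0, fun x => (hempty.false x).elim, fun x => (hempty.false x).elim⟩
    exact exists_good_ad hO (by omega) (by omega) hdeg hne
  · -- reversal
    have hO' : ∀ x y, (fun x y => O y x) x y → ¬ (fun x y => O y x) y x :=
      fun x y h h' => hO _ _ h' h
    obtain ⟨x, y, h⟩ := exists_good_c (O := fun x y => O y x) hO' (a := d) (b := c) (d := a) hc
      (by omega) (by
        intro v
        rw [Ni_flip, No_flip]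
        have := hdeg v
        omega) (by
        intro h
        apply hcol
        have h2 := h.flip
        refine h2.mono (Subset.refl _) (by omega))
    exact ⟨y, x, h.flip⟩
  · exact exists_good_c hO hb (by omega) hdeg hcol
  · exact exists_good_bc hO hb hc hdeg hcol

end Pool.Helper56.Havet
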