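import Pool.Agent.Helper56.Havet.Few

/-!
# Embedding a tree level by level
-/

set_option autoImplicit false

namespace Pool.Helper56.Havet

open Finset
open scoped Classical

/-- Nested sets with large degrees from one level to the next. -/
theorem exists_levels {V : Type*} {O : V → V → Prop} (hO : ∀ x y, O x y → ¬ O y x) (t : ℕ)
    (ht : 1 ≤ t) :
    ∀ (ρ : ℕ) (S : Finset V), ¬ Col O S (ρ * (4 * t)) →
      ∃ L : ℕ → Finset V, (L 0).Nonempty ∧ (∀ j ≤ ρ, L j ⊆ S) ∧
        ∀ j < ρ, ∀ x ∈ L j, t ≤ ((L (j + 1)).filter (fun y => O x y)).card ∧
          t ≤ ((L (j + 1)).filter (fun y => O y x)).card := by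
  intro ρ
  induction ρ with
  | zero =>
    intro S hS
    have hne : S.Nonempty := card_pos.1 (by
      have := card_of_not_col hO hS; omega)
    exact ⟨fun _ => S, hne, fun _ _ => Subset.refl _, fun j hj => absurd hj (by omega)⟩
  | succ ρ ih =>
    intro S hS
    set K := S.filter (fun x => t ≤ (S.filter (fun y => O x y)).card ∧
      t ≤ (S.filter (fun y => O y x)).card) with hK
    have hKS : K ⊆ S := filter_subset _ _
    have c1 : Col O (S.filter (fun x => (S.filter (fun y => O x y)).card < t))
        (2 * (t - 1) + 1) := by
      apply col_of_out hO
      intro x hx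
      have h2 := (mem_filter.1 hx).2
      have h3 : ((S.filter (fun x => (S.filter (fun y => O x y)).card < t)).filter
          (fun y => O x y)).card ≤ (S.filter (fun y => O x y)).card :=
        card_le_card (filter_subset_filter _ (filter_subset _ _))
      omega
    have c2 : Col O (S.filter (fun x => (S.filter (fun y => O y x)).card < t))
        (2 * (t - 1) + 1) := by
      apply col_of_in hO
      intro x hx
      have h2 := (mem_filter.1 hx).2
      have h3 : ((S.filter (fun x => (S.filter (fun y => O y x)).card < t)).filter
          (fun y => O y x)).card ≤ (S.filter (fun y => O y x)).card :=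
        card_le_card (filter_subset_filter _ (filter_subset _ _))
      omega
    have hKcol : ¬ Col O K (ρ * (4 * t)) := by
      intro h
      apply hS
      refine ((h.union c1).union c2).mono ?_ ?_
      · intro x hx
        simp only [hK, mem_union, mem_filter, hx, true_and]
        by_cases h1 : (S.filter (fun y => O x y)).card < t
        · exact Or.inl (Or.inr h1)
        · by_cases h2 : (S.filter (fun y => O y x)).card < t
          · exact Or.inr h2
          · exact Or.inl (Or.inl ⟨by omega, by omega⟩)
      · have e : (ρ + 1) * (4 * t) = ρ * (4 * t) + 4 * t := by ring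
        rw [e]; omega
    obtain ⟨L, h0, h1, h2⟩ := ih K hKcol
    refine ⟨fun j => if j ≤ ρ then L j else S, ?_, ?_, ?_⟩
    · simpa using h0
    · intro j _
      by_cases hj : j ≤ ρ
      · simp only [hj, if_true]; exact (h1 j hj).trans hKS
      · simp only [hj, if_false]; exact Subset.refl _
    · intro j hj x hx
      have hj' : j ≤ ρ := by omega
      simp only [hj', if_true] at hx
      by_cases hj2 : j + 1 ≤ ρ
      · simp only [hj2, if_true]
        exact h2 j (by omega) x hx
      · simp only [hj2, if_false]
        have := h1 j hj' hx
        exact (mem_filter.1 this).2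

/-- Embedding level by level. -/
theorem embed_levels {W V : Type*} {H : SimpleGraph W} (hH : H.IsTree) (R : W → W → Prop)
    (hR : ∀ x y, R x y → ¬ R y x) (hRH : ∀ x y, R x y → H.Adj x y) (O : V → V → Prop)
    (r : W) (ρ t : ℕ) (ht : 1 ≤ t) (L : ℕ → Finset V) (hL0 : (L 0).Nonempty)
    (hL : ∀ j < ρ, ∀ x ∈ L j, t ≤ ((L (j + 1)).filter (fun y => O x y)).card ∧
          t ≤ ((L (j + 1)).filter (fun y => O y x)).card) :
    ∀ (c : ℕ) (C : Finset W), C.card = c → c ≤ t → (∀ w ∈ C, H.dist r w ≤ ρ) →
      ∃ φ : W → V, Set.InjOn φ C ∧ (∀ w ∈ C, φ w ∈ L (H.dist r w)) ∧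
        ∀ w ∈ C, ∀ w' ∈ C, R w w' → O (φ w) (φ w') := by
  have hirr : ∀ x, ¬ R x x := fun x h => hR _ _ h h
  have hne : ∀ j ≤ ρ, (L j).Nonempty := by
    intro j
    induction j with
    | zero => exact fun _ => hL0
    | succ j ih =>
      intro hj
      obtain ⟨x, hx⟩ := ih (by omega)
      have h1 := (hL j (by omega) x hx).1
      obtain ⟨y, hy⟩ : ((L (j + 1)).filter (fun y => O x y)).Nonempty := card_pos.1 (by omega)
      exact ⟨y, (mem_filter.1 hy).1⟩
  intro c
  induction c with
  | zero =>
    intro C hC _ _
    rw [card_eq_zero] at hC
    subst hC
    obtain ⟨x, _⟩ := hL0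
    exact ⟨fun _ => x, by simp, by simp, by simp⟩
  | succ c ih =>
    intro C hC hct hdist
    obtain ⟨v, hv, hmax⟩ := exists_max_image C (fun v => H.dist r v) (card_pos.1 (by omega))
    obtain ⟨p, hp, hp'⟩ := (hH.connected r v).exists_path_of_dist
    have key : ∀ y ∈ C, H.Adj v y → y = p.penultimate := by
      intro y hy hvy
      obtain ⟨q, hq, hq'⟩ := (hH.connected r y).exists_path_of_dist
      by_cases hyp : y ∈ p.support
      · exact hH.isAcyclic.eq_penultimate_of_adj_end hp hvy hyp
      · exfalso
        have hvq : v ∈ q.support :=
          hH.isAcyclic.mem_support_of_ne_mem_support_of_adj_of_isPath hq hp hvy.symm hyp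
        have h1 := hH.isAcyclic.path_concat hp hq hvy hvq
        have h2 : q.length = p.length + 1 := by rw [h1, SimpleGraph.Walk.length_concat]
        have h3 := hmax y hy
        omega
    have hC' : (C.erase v).card = c := by rw [card_erase_of_mem hv]; omega
    obtain ⟨φ, hinj, hin, hhom⟩ := ih (C.erase v) hC' (by omega)
      (fun w hw => hdist w (mem_of_mem_erase hw))
    have himg : ((C.erase v).image φ).card ≤ c := hC' ▸ card_image_le
    have hnev : ∀ w ∈ C.erase v, w ≠ v := fun w hw => (mem_erase.1 hw).1
    have hcases : ∀ w ∈ C, w = v ∨ w ∈ C.erase v := by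
      intro w hw
      by_cases h : w = v
      · exact Or.inl h
      · exact Or.inr (mem_erase.2 ⟨h, hw⟩)
    -- the image of v
    obtain ⟨y, hyL, hyn, hyadj⟩ : ∃ y ∈ L (H.dist r v), y ∉ (C.erase v).image φ ∧
        ∀ u ∈ C.erase v, (R u v → O (φ u) y) ∧ (R v u → O y (φ u)) := by
      by_cases hex : ∃ u ∈ C.erase v, R v u ∨ R u v
      · obtain ⟨u, hu, huv⟩ := hex
        have huC := mem_of_mem_erase hu
        have hadjvu : H.Adj v u := by
          rcases huv with h | h
          · exact hRH _ _ h
          · exact (hRH _ _ h).symm
        have honly : ∀ y ∈ C.erase v, (R v y ∨ R y v) → y = u := by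
          intro y hy hvy
          rw [key y (mem_of_mem_erase hy) ?_, key u huC hadjvu]
          rcases hvy with h | h
          · exact hRH _ _ h
          · exact (hRH _ _ h).symm
        have hd : H.dist r v = H.dist r u + 1 := by
          rcases hH.dist_eq_dist_add_one_of_adj r hadjvu with h | h
          · exact h
          · have := hmax u huC
            omega
        have hρ := hdist v hv
        obtain ⟨ho, hi⟩ := hL (H.dist r u) (by omega) (φ u) (hin u hu)
        rw [← hd] at ho hi
        rcases huv with h | h
        · -- R v u : in-neighbour
          obtain ⟨y, hy, hyn⟩ : ∃ y ∈ (L (H.dist r v)).filter (fun y => O y (φ u)),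
              y ∉ (C.erase v).image φ := by
            by_contra hcon
            push Not at hcon
            have h6 := card_le_card (show (L (H.dist r v)).filter (fun y => O y (φ u)) ⊆
              (C.erase v).image φ from hcon)
            omega
          rw [mem_filter] at hy
          refine ⟨y, hy.1, hyn, ?_⟩
          intro u' hu'
          refine ⟨fun h1 => ?_, fun h1 => ?_⟩
          · have := honly u' hu' (Or.inr h1)
            subst this
            exact absurd h (hR _ _ h1)
          · have := honly u' hu' (Or.inl h1)
            subst this
            exact hy.2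
        · obtain ⟨y, hy, hyn⟩ : ∃ y ∈ (L (H.dist r v)).filter (fun y => O (φ u) y),
              y ∉ (C.erase v).image φ := by
            by_contra hcon
            push Not at hcon
            have h6 := card_le_card (show (L (H.dist r v)).filter (fun y => O (φ u) y) ⊆
              (C.erase v).image φ from hcon)
            omega
          rw [mem_filter] at hy
          refine ⟨y, hy.1, hyn, ?_⟩
          intro u' hu'
          refine ⟨fun h1 => ?_, fun h1 => ?_⟩
          · have := honly u' hu' (Or.inr h1)
            subst this
            exact hy.2
          · have := honly u' hu' (Or.inl h1)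
            subst this
            exact absurd h (hR _ _ h1)
      · push Not at hex
        have : ∃ y ∈ L (H.dist r v), y ∉ (C.erase v).image φ := by
          rcases Nat.eq_zero_or_pos (H.dist r v) with h0 | h0
          · -- v = r and C = {v}
            have hrv : r = v := by
              by_contra hrv
              exact absurd h0 ((hH.connected.pos_dist_of_ne hrv).ne')
            have hemp : C.erase v = ∅ := by
              rw [eq_empty_iff_forall_notMem]
              intro w hw
              have h1 := hmax w (mem_of_mem_erase hw)
              have h2 : H.dist r w = 0 := by omega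
              have h3 : r = w := by
                by_contra hrw
                exact absurd h2 ((hH.connected.pos_dist_of_ne hrw).ne')
              exact hnev w hw (h3.symm.trans hrv)
            obtain ⟨y, hy⟩ := hne (H.dist r v) (hdist v hv)
            exact ⟨y, hy, by rw [hemp]; simp⟩
          · have hρ := hdist v hv
            obtain ⟨x, hx⟩ := hne (H.dist r v - 1) (by omega)
            have h1 := (hL (H.dist r v - 1) (by omega) x hx).1
            have e : H.dist r v - 1 + 1 = H.dist r v := by omega
            rw [e] at h1
            by_contra hcon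
            push Not at hcon
            have h6 := card_le_card (show L (H.dist r v) ⊆ (C.erase v).image φ from hcon)
            have h7 : ((L (H.dist r v)).filter (fun y => O x y)).card ≤ (L (H.dist r v)).card :=
              card_le_card (filter_subset _ _)
            omega
        obtain ⟨y, hy, hyn⟩ := this
        exact ⟨y, hy, hyn, fun u hu => ⟨fun h => absurd h (hex u hu).2,
          fun h => absurd h (hex u hu).1⟩⟩
    have hφ : ∀ w ∈ C.erase v, φ w ≠ y := fun w hw he => hyn (mem_image.2 ⟨w, hw, he⟩)
    refine ⟨fun w => if w = v then y else φ w, ?_, ?_, ?_⟩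
    · intro w hw w' hw' he
      rcases hcases w hw with h1 | h1 <;> rcases hcases w' hw' with h2 | h2
      · rw [h1, h2]
      · simp only [h1, if_true, hnev w' h2, if_false] at he
        exact absurd he.symm (hφ w' h2)
      · simp only [h2, if_true, hnev w h1, if_false] at he
        exact absurd he (hφ w h1)
      · simp only [hnev w h1, hnev w' h2, if_false] at he
        exact hinj h1 h2 he
    · intro w hw
      rcases hcases w hw with h1 | h1
      · simp only [h1, if_true]; exact hyL
      · simp only [hnev w h1, if_false]; exact hin w h1
    · intro w hw w' hw' hww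
      rcases hcases w hw with h1 | h1 <;> rcases hcases w' hw' with h2 | h2
      · rw [h1, h2] at hww
        exact absurd hww (hirr _)
      · rw [h1] at hww
        simp only [h1, if_true, hnev w' h2, if_false]
        exact (hyadj w' h2).2 hww
      · rw [h2] at hww
        simp only [h2, if_true, hnev w h1, if_false]
        exact (hyadj w h1).1 hww
      · simp only [hnev w h1, hnev w' h2, if_false]
        exact hhom w h1 w' h2 hww

end Pool.Helper56.Havet
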