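import Pool.Agent.Helper56.Havet.Levels

/-!
# Passing to a critical oriented subgraph; attaching the leaves
-/

set_option autoImplicit false

namespace Pool.Helper56.Havet

open Finset
open scoped Classical

/-- Passing to a critical oriented subgraph. -/
theorem reduce {V : Type} [Fintype V] (D : V → V → Prop) (n : ℕ)
    (h : ((n + 1 : ℕ) : ℕ∞) ≤ (SimpleGraph.fromRel D).chromaticNumber) :
    ∃ (V' : Type) (_ : Fintype V') (O : V' → V' → Prop) (g : V' → V),
      Function.Injective g ∧ (∀ x y, O x y → D (g x) (g y)) ∧ (∀ x y, O x y → ¬ O y x) ∧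
      ¬ Col O univ n ∧ ∀ v, n ≤ (No O v).card + (Ni O v).card := by
  let e := Fintype.equivFin V
  obtain ⟨O, hOd⟩ : ∃ O : V → V → Prop,
      ∀ x y, O x y ↔ (x ≠ y ∧ D x y ∧ (¬ D y x ∨ e x < e y)) := ⟨_, fun _ _ => Iff.rfl⟩
  have hO : ∀ x y, O x y → ¬ O y x := by
    intro x y hxy hyx
    obtain ⟨h1, h2, h3⟩ := (hOd x y).1 hxy
    obtain ⟨h4, h5, h6⟩ := (hOd y x).1 hyx
    rcases h3 with h3 | h3
    · exact h3 h5
    · rcases h6 with h6 | h6
      · exact h6 h2
      · exact absurd h3 (not_lt.2 h6.le)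
  have hcol : ¬ Col O univ n := by
    rintro ⟨c, hc1, hc2⟩
    have hC : (SimpleGraph.fromRel D).Colorable n := by
      refine ⟨SimpleGraph.Coloring.mk (fun x => (⟨c x, hc1 x (mem_univ x)⟩ : Fin n)) ?_⟩
      intro x y hxy heq
      rw [SimpleGraph.fromRel_adj] at hxy
      have heq' : c x = c y := by simpa using heq
      have hor : O x y ∨ O y x := by
        rw [hOd, hOd]
        obtain ⟨hne, h1 | h1⟩ := hxy
        · by_cases h2 : D y x
          · rcases lt_or_gt_of_ne (fun h => hne (e.injective h)) with h3 | h3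
            · exact Or.inl ⟨hne, h1, Or.inr h3⟩
            · exact Or.inr ⟨hne.symm, h2, Or.inr h3⟩
          · exact Or.inl ⟨hne, h1, Or.inl h2⟩
        · by_cases h2 : D x y
          · rcases lt_or_gt_of_ne (fun h => hne (e.injective h)) with h3 | h3
            · exact Or.inl ⟨hne, h2, Or.inr h3⟩
            · exact Or.inr ⟨hne.symm, h1, Or.inr h3⟩
          · exact Or.inr ⟨hne.symm, h1, Or.inl h2⟩
      rcases hor with h1 | h1
      · exact hc2 x (mem_univ _) y (mem_univ _) h1 heq'
      · exact hc2 y (mem_univ _) x (mem_univ _) h1 heq'.symm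
    have h1 := h.trans hC.chromaticNumber_le
    have h2 : n + 1 ≤ n := by exact_mod_cast h1
    omega
  obtain ⟨S, hS, hmin⟩ : ∃ S : Finset V, ¬ Col O S n ∧ ∀ T ⊂ S, Col O T n := by
    by_contra hcon
    push Not at hcon
    have hall : ∀ S : Finset V, Col O S n := by
      intro S
      induction S using Finset.strongInduction with
      | H S ih =>
        by_contra hS
        obtain ⟨T, hT, hT'⟩ := hcon S hS
        exact hT' (ih T hT)
    exact hcol (hall univ)
  refine ⟨{x // x ∈ S}, inferInstance, fun x y => O x.1 y.1, Subtype.val,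
    Subtype.val_injective, fun x y hxy => ((hOd _ _).1 hxy).2.1, fun x y => hO x.1 y.1, ?_, ?_⟩
  · rintro ⟨c, hc1, hc2⟩
    apply hS
    refine ⟨fun x => if h : x ∈ S then c ⟨x, h⟩ else 0, ?_, ?_⟩
    · intro x hx
      simp only [hx, dif_pos]
      exact hc1 ⟨x, hx⟩ (mem_univ _)
    · intro x hx y hy hxy
      simp only [hx, hy, dif_pos]
      exact hc2 ⟨x, hx⟩ (mem_univ _) ⟨y, hy⟩ (mem_univ _) hxy
  · intro v
    by_contra hcon
    push Not at hcon
    obtain ⟨c, hc1, hc2⟩ := hmin (S.erase v.1) (erase_ssubset v.2)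
    have h2 : Col (fun x y : {x // x ∈ S} => O x.1 y.1) univ n := by
      refine col_univ_of_erase (fun x y => hO x.1 y.1) v ⟨fun x => c x.1, ?_, ?_⟩ hcon
      · intro x hx
        exact hc1 x.1 (mem_erase.2 ⟨fun he => hx (Subtype.ext he), x.2⟩)
      · intro x hx y hy hxy
        exact hc2 x.1 (mem_erase.2 ⟨fun he => hx (Subtype.ext he), x.2⟩)
          y.1 (mem_erase.2 ⟨fun he => hy (Subtype.ext he), y.2⟩) hxy
    obtain ⟨c', hc1', hc2'⟩ := h2
    apply hS
    refine ⟨fun x => if h : x ∈ S then c' ⟨x, h⟩ else 0, ?_, ?_⟩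
    · intro x hx
      simp only [hx, dif_pos]
      exact hc1' ⟨x, hx⟩ (mem_univ _)
    · intro x hx y hy hxy
      simp only [hx, hy, dif_pos]
      exact hc2' ⟨x, hx⟩ (mem_univ _) ⟨y, hy⟩ (mem_univ _) hxy

/-- A leaf whose neighbour is a leaf: the two vertices are everything. -/
theorem leaf_leaf {W : Type} {H : SimpleGraph W} (hc : H.Preconnected) {v w : W}
    (hv : (H.neighborSet v).ncard = 1) (hw : (H.neighborSet w).ncard = 1) (hvw : H.Adj v w)
    (z : W) : z = v ∨ z = w := by
  obtain ⟨v', hv'⟩ := Set.ncard_eq_one.1 hv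
  obtain ⟨w', hw'⟩ := Set.ncard_eq_one.1 hw
  have e1 : w = v' := by
    have : w ∈ H.neighborSet v := hvw
    rw [hv'] at this; exact this
  have e2 : v = w' := by
    have : v ∈ H.neighborSet w := hvw.symm
    rw [hw'] at this; exact this
  have h := closed_univ hc (C := {z | z = v ∨ z = w}) (p := v) (Or.inl rfl) ?_ z
  · exact h
  · intro x hx y hxy
    rcases hx with rfl | rfl
    · right
      have : y ∈ H.neighborSet x := hxy
      rw [hv', ← e1] at this; exact this
    · left
      have : y ∈ H.neighborSet x := hxy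
      rw [hw', ← e2] at this; exact this


/-- A part that is not `m`-colourable induces a digraph of chromatic number `> m`. -/
theorem chrom_of_not_col {V : Type} [Fintype V] {O : V → V → Prop} (hO : ∀ x y, O x y → ¬ O y x)
    {X : Finset V} {m : ℕ} (h : ¬ Col O X m) :
    ((m + 1 : ℕ) : ℕ∞) ≤
      (SimpleGraph.fromRel (fun x y : {x // x ∈ X} => O x.1 y.1)).chromaticNumber := by
  by_contra hcon
  rw [not_le] at hcon
  have h1 : (SimpleGraph.fromRel (fun x y : {x // x ∈ X} => O x.1 y.1)).chromaticNumber ≤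
      (m : ℕ∞) := by
    have h2 : ((m + 1 : ℕ) : ℕ∞) = (m : ℕ∞) + 1 := by push_cast; rfl
    rw [h2] at hcon
    exact Order.le_of_lt_add_one hcon
  rw [SimpleGraph.chromaticNumber_le_iff_colorable] at h1
  obtain ⟨c⟩ := h1
  apply h
  refine ⟨fun x => if hx : x ∈ X then (c ⟨x, hx⟩ : ℕ) else 0, ?_, ?_⟩
  · intro x hx
    simp only [hx, dif_pos]
    exact (c ⟨x, hx⟩).2
  · intro x hx y hy hxy
    simp only [hx, hy, dif_pos]
    intro he
    have hadj : (SimpleGraph.fromRel (fun x y : {x // x ∈ X} => O x.1 y.1)).Adj ⟨x, hx⟩ ⟨y, hy⟩ := by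
      rw [SimpleGraph.fromRel_adj]
      refine ⟨?_, Or.inl hxy⟩
      intro h3
      have h4 : x = y := congrArg Subtype.val h3
      rw [h4] at hxy
      exact hO _ _ hxy hxy
    exact c.valid hadj (Fin.ext he)

end Pool.Helper56.Havet
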